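import Mathlib

/-!
A retraction of the hyperspace of closed subsets of a planar fan over a compact totally
disconnected set of slopes onto the hyperspace of its subcontinua.
-/

set_option autoImplicit false

open Set Topology Metric TopologicalSpace

namespace Pool.Agent.W621.Fan

/-! ### suprema and infima in hyperspaces of the line -/

theorem continuous_sSup : Continuous fun K : NonemptyCompacts ℝ => sSup (K : Set ℝ) := by
  rw [continuous_iff_continuousAt]
  intro K
  refine tendsto_order.2 ⟨fun c hc => ?_, fun c hc => ?_⟩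
  · obtain ⟨x, hx, hcx⟩ := exists_lt_of_lt_csSup K.nonempty hc
    filter_upwards [(NonemptyCompacts.isOpen_inter_nonempty_of_isOpen (isOpen_Ioi (a := c))).mem_nhds
      ⟨x, hx, hcx⟩] with L hL
    obtain ⟨y, hy, hcy⟩ := hL
    exact lt_of_lt_of_le hcy (le_csSup L.isCompact.bddAbove hy)
  · have : (K : Set ℝ) ⊆ Iio c := fun x hx => lt_of_le_of_lt (le_csSup K.isCompact.bddAbove hx) hc
    filter_upwards [(NonemptyCompacts.isOpen_subsets_of_isOpen (isOpen_Iio (a := c))).mem_nhds
      this] with L hL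
    exact hL (L.isCompact.sSup_mem L.nonempty)

theorem continuous_sInf : Continuous fun K : NonemptyCompacts ℝ => sInf (K : Set ℝ) := by
  rw [continuous_iff_continuousAt]
  intro K
  refine tendsto_order.2 ⟨fun c hc => ?_, fun c hc => ?_⟩
  · have : (K : Set ℝ) ⊆ Ioi c := fun x hx => lt_of_lt_of_le hc (csInf_le K.isCompact.bddBelow hx)
    filter_upwards [(NonemptyCompacts.isOpen_subsets_of_isOpen (isOpen_Ioi (a := c))).mem_nhds
      this] with L hL
    exact hL (L.isCompact.sInf_mem L.nonempty)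
  · obtain ⟨x, hx, hcx⟩ := exists_lt_of_csInf_lt K.nonempty hc
    filter_upwards [(NonemptyCompacts.isOpen_inter_nonempty_of_isOpen (isOpen_Iio (a := c))).mem_nhds
      ⟨x, hx, hcx⟩] with L hL
    obtain ⟨y, hy, hcy⟩ := hL
    exact lt_of_le_of_lt (csInf_le L.isCompact.bddBelow hy) hcy

/-! ### the planar fan -/

/-- the fan over a set of slopes -/
def M0 (K : Set ℝ) : Set (ℝ × ℝ) := {p | 0 ≤ p.2 ∧ p.2 ≤ 1 ∧ ∃ k ∈ K, p.1 = p.2 * k}

/-- the unit interval as a compact set -/
def I : NonemptyCompacts ℝ := ⟨⟨Icc 0 1, isCompact_Icc⟩, nonempty_Icc.2 zero_le_one⟩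

theorem mem_I {t : ℝ} : t ∈ I ↔ 0 ≤ t ∧ t ≤ 1 := Iff.rfl

/-- the union of the segments from the origin to the points of `A` -/
noncomputable def H (A : NonemptyCompacts (ℝ × ℝ)) : NonemptyCompacts (ℝ × ℝ) :=
  (I ×ˢ A).map (fun q : ℝ × (ℝ × ℝ) => (q.1 * q.2.1, q.1 * q.2.2)) (by fun_prop)

theorem mem_H {A : NonemptyCompacts (ℝ × ℝ)} {x : ℝ × ℝ} :
    x ∈ (H A : Set (ℝ × ℝ)) ↔ ∃ t : ℝ, 0 ≤ t ∧ t ≤ 1 ∧ ∃ p ∈ A, x = (t * p.1, t * p.2) := by
  constructor
  · rintro ⟨⟨t, p⟩, ⟨ht, hp⟩, rfl⟩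
    exact ⟨t, ht.1, ht.2, p, hp, rfl⟩
  · rintro ⟨t, h0, h1, p, hp, rfl⟩
    exact ⟨(t, p), ⟨⟨h0, h1⟩, hp⟩, rfl⟩

theorem continuous_H : Continuous H := by
  unfold H
  refine Continuous.nonemptyCompacts_map' (g := fun _ => fun q : ℝ × (ℝ × ℝ) =>
    (q.1 * q.2.1, q.1 * q.2.2)) ?_ ?_
  · exact NonemptyCompacts.continuous_prod.comp (continuous_const.prodMk continuous_id)
  · unfold Function.uncurry
    fun_prop

/-- the general form of the values of the retraction -/
noncomputable def G (α β l k : ℝ) (A : NonemptyCompacts (ℝ × ℝ)) : NonemptyCompacts (ℝ × ℝ) :=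
  I.map (fun t : ℝ => ((α + t * (β - α)) * k, α + t * (β - α))) (by fun_prop) ⊔
  (I ×ˢ A).map (fun q : ℝ × (ℝ × ℝ) => (α * k + q.1 * l * q.2.1, α + q.1 * l * q.2.2))
    (by fun_prop)

theorem mem_G {α β l k : ℝ} {A : NonemptyCompacts (ℝ × ℝ)} {x : ℝ × ℝ} :
    x ∈ (G α β l k A : Set (ℝ × ℝ)) ↔
      (∃ t : ℝ, 0 ≤ t ∧ t ≤ 1 ∧ x = ((α + t * (β - α)) * k, α + t * (β - α))) ∨
      (∃ t : ℝ, 0 ≤ t ∧ t ≤ 1 ∧ ∃ p ∈ A, x = (α * k + t * l * p.1, α + t * l * p.2)) := by
  unfold G
  rw [NonemptyCompacts.coe_sup, mem_union]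
  refine or_congr ?_ ?_
  · constructor
    · rintro ⟨t, ht, rfl⟩
      exact ⟨t, ht.1, ht.2, rfl⟩
    · rintro ⟨t, h0, h1, rfl⟩
      exact ⟨t, ⟨h0, h1⟩, rfl⟩
  · constructor
    · rintro ⟨⟨t, p⟩, ⟨ht, hp⟩, rfl⟩
      exact ⟨t, ht.1, ht.2, p, hp, rfl⟩
    · rintro ⟨t, h0, h1, p, hp, rfl⟩
      exact ⟨(t, p), ⟨⟨h0, h1⟩, hp⟩, rfl⟩

theorem continuous_G : Continuous fun q : (ℝ × ℝ × ℝ × ℝ) × NonemptyCompacts (ℝ × ℝ) =>
    G q.1.1 q.1.2.1 q.1.2.2.1 q.1.2.2.2 q.2 := by
  unfold G
  refine Continuous.sup ?_ ?_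
  · refine Continuous.nonemptyCompacts_map' (f := fun _ => I)
      (g := fun q : (ℝ × ℝ × ℝ × ℝ) × NonemptyCompacts (ℝ × ℝ) => fun t : ℝ =>
      ((q.1.1 + t * (q.1.2.1 - q.1.1)) * q.1.2.2.2, q.1.1 + t * (q.1.2.1 - q.1.1))) ?_ ?_
    · exact continuous_const
    · unfold Function.uncurry
      fun_prop
  · refine Continuous.nonemptyCompacts_map' (f := fun q : (ℝ × ℝ × ℝ × ℝ) ×
      NonemptyCompacts (ℝ × ℝ) => I ×ˢ q.2)
      (g := fun q : (ℝ × ℝ × ℝ × ℝ) × NonemptyCompacts (ℝ × ℝ) => fun q' : ℝ × (ℝ × ℝ) =>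
      (q.1.1 * q.1.2.2.2 + q'.1 * q.1.2.2.1 * q'.2.1, q.1.1 + q'.1 * q.1.2.2.1 * q'.2.2)) ?_ ?_
    · exact NonemptyCompacts.continuous_prod.comp (continuous_const.prodMk continuous_snd)
    · unfold Function.uncurry
      fun_prop

/-! ### the parameters -/

/-- least height -/
noncomputable def lo (A : NonemptyCompacts (ℝ × ℝ)) : ℝ := sInf (Prod.snd '' (A : Set (ℝ × ℝ)))

/-- greatest height -/
noncomputable def hi (A : NonemptyCompacts (ℝ × ℝ)) : ℝ := sSup (Prod.snd '' (A : Set (ℝ × ℝ)))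

/-- greatest slope, heights being replaced by `c` if they are less than `c` -/
noncomputable def kMc (c : ℝ) (A : NonemptyCompacts (ℝ × ℝ)) : ℝ :=
  sSup ((fun p : ℝ × ℝ => p.1 / max p.2 c) '' (A : Set (ℝ × ℝ)))

/-- least slope, heights being replaced by `c` if they are less than `c` -/
noncomputable def kmc (c : ℝ) (A : NonemptyCompacts (ℝ × ℝ)) : ℝ :=
  sInf ((fun p : ℝ × ℝ => p.1 / max p.2 c) '' (A : Set (ℝ × ℝ)))

/-- greatest slope -/
noncomputable def kM (A : NonemptyCompacts (ℝ × ℝ)) : ℝ :=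
  sSup ((fun p : ℝ × ℝ => p.1 / p.2) '' (A : Set (ℝ × ℝ)))

/-- least slope -/
noncomputable def km (A : NonemptyCompacts (ℝ × ℝ)) : ℝ :=
  sInf ((fun p : ℝ × ℝ => p.1 / p.2) '' (A : Set (ℝ × ℝ)))

theorem continuous_lo : Continuous lo :=
  continuous_sInf.comp (continuous_snd (X := ℝ) (Y := ℝ)).nonemptyCompacts_map

theorem continuous_hi : Continuous hi :=
  continuous_sSup.comp (continuous_snd (X := ℝ) (Y := ℝ)).nonemptyCompacts_map

theorem continuous_slope {c : ℝ} (hc : 0 < c) : Continuous fun p : ℝ × ℝ => p.1 / max p.2 c :=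
  continuous_fst.div (by fun_prop) fun p => (lt_of_lt_of_le hc (le_max_right _ _)).ne'

theorem continuous_kMc {c : ℝ} (hc : 0 < c) : Continuous (kMc c) :=
  continuous_sSup.comp (continuous_slope hc).nonemptyCompacts_map

theorem continuous_kmc {c : ℝ} (hc : 0 < c) : Continuous (kmc c) :=
  continuous_sInf.comp (continuous_slope hc).nonemptyCompacts_map

section facts

variable {A : NonemptyCompacts (ℝ × ℝ)}

theorem isCompact_snd : IsCompact (Prod.snd '' (A : Set (ℝ × ℝ))) :=
  A.isCompact.image continuous_snd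

theorem lo_le {p : ℝ × ℝ} (hp : p ∈ A) : lo A ≤ p.2 :=
  csInf_le isCompact_snd.bddBelow ⟨p, hp, rfl⟩

theorem le_hi {p : ℝ × ℝ} (hp : p ∈ A) : p.2 ≤ hi A :=
  le_csSup isCompact_snd.bddAbove ⟨p, hp, rfl⟩

theorem exists_lo : ∃ p ∈ A, p.2 = lo A := isCompact_snd.sInf_mem (A.nonempty.image _)

theorem exists_hi : ∃ p ∈ A, p.2 = hi A := isCompact_snd.sSup_mem (A.nonempty.image _)

theorem kMc_eq {c : ℝ} (hc : c ≤ lo A) : kMc c A = kM A := by
  unfold kMc kM
  congr 1
  refine image_congr fun p hp => ?_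
  rw [max_eq_left (hc.trans (lo_le hp))]

theorem kmc_eq {c : ℝ} (hc : c ≤ lo A) : kmc c A = km A := by
  unfold kmc km
  congr 1
  refine image_congr fun p hp => ?_
  rw [max_eq_left (hc.trans (lo_le hp))]

theorem isCompact_slope (h : 0 < lo A) :
    IsCompact ((fun p : ℝ × ℝ => p.1 / p.2) '' (A : Set (ℝ × ℝ))) := by
  refine A.isCompact.image_of_continuousOn ?_
  exact continuousOn_fst.div continuousOn_snd fun p hp => (lt_of_lt_of_le h (lo_le hp)).ne'

theorem le_kM (h : 0 < lo A) {p : ℝ × ℝ} (hp : p ∈ A) : p.1 / p.2 ≤ kM A :=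
  le_csSup (isCompact_slope h).bddAbove ⟨p, hp, rfl⟩

theorem km_le (h : 0 < lo A) {p : ℝ × ℝ} (hp : p ∈ A) : km A ≤ p.1 / p.2 :=
  csInf_le (isCompact_slope h).bddBelow ⟨p, hp, rfl⟩

theorem exists_kM (h : 0 < lo A) : ∃ p ∈ A, p.1 / p.2 = kM A :=
  (isCompact_slope h).sSup_mem (A.nonempty.image _)

theorem exists_km (h : 0 < lo A) : ∃ p ∈ A, p.1 / p.2 = km A :=
  (isCompact_slope h).sInf_mem (A.nonempty.image _)

theorem lo_le_hi : lo A ≤ hi A := by
  obtain ⟨p, hp⟩ := A.nonempty
  exact (lo_le hp).trans (le_hi hp)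

theorem km_le_kM (h : 0 < lo A) : km A ≤ kM A := by
  obtain ⟨p, hp⟩ := A.nonempty
  exact (km_le h hp).trans (le_kM h hp)

end facts

/-- spread of the slopes -/
noncomputable def w (A : NonemptyCompacts (ℝ × ℝ)) : ℝ := kM A - km A

/-- lower end -/
noncomputable def al (A : NonemptyCompacts (ℝ × ℝ)) : ℝ := max (lo A - 2 * w A) 0

/-- factor for the hull -/
noncomputable def la (A : NonemptyCompacts (ℝ × ℝ)) : ℝ :=
  max 0 (min 1 ((2 * w A - lo A) / lo A))

/-- upper end -/
noncomputable def be (A : NonemptyCompacts (ℝ × ℝ)) : ℝ :=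
  hi A * max 0 (min 1 ((2 * lo A - w A) / lo A))

open Classical in
/-- the retraction -/
noncomputable def R (A : NonemptyCompacts (ℝ × ℝ)) : NonemptyCompacts (ℝ × ℝ) :=
  if lo A ≤ 0 then H A else G (al A) (be A) (la A) (kM A) A

theorem R_of_le {A : NonemptyCompacts (ℝ × ℝ)} (h : lo A ≤ 0) : R A = H A := if_pos h

theorem R_of_pos {A : NonemptyCompacts (ℝ × ℝ)} (h : 0 < lo A) :
    R A = G (al A) (be A) (la A) (kM A) A := if_neg (not_le.2 h)

/-! ### elementary facts about the parameters -/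

section params

variable {A : NonemptyCompacts (ℝ × ℝ)}

theorem w_nonneg (h : 0 < lo A) : 0 ≤ w A := sub_nonneg.2 (km_le_kM h)

theorem al_nonneg : 0 ≤ al A := le_max_right _ _

theorem al_le_lo (h : 0 < lo A) : al A ≤ lo A :=
  max_le (by have := w_nonneg h; linarith) h.le

theorem la_nonneg : 0 ≤ la A := le_max_left _ _

theorem la_le_one : la A ≤ 1 := max_le zero_le_one (min_le_left _ _)

theorem al_or_la (h : 0 < lo A) : al A = 0 ∨ la A = 0 := by
  rcases le_total (lo A) (2 * w A) with h1 | h1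
  · left
    exact max_eq_right (by linarith)
  · right
    unfold la
    refine max_eq_left ((min_le_right _ _).trans ?_)
    exact div_nonpos_of_nonpos_of_nonneg (by linarith) h.le

theorem la_eq_one (h : 0 < lo A) (h1 : lo A ≤ w A) : la A = 1 := by
  unfold la
  have : 1 ≤ (2 * w A - lo A) / lo A := by
    rw [le_div_iff₀ h]; linarith
  rw [min_eq_left this]
  exact max_eq_right zero_le_one

theorem al_eq_zero (h1 : lo A ≤ 2 * w A) : al A = 0 := max_eq_right (by linarith)

theorem be_eq (h : 0 < lo A) (h1 : w A ≤ lo A) : be A = hi A := by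
  unfold be
  have : 1 ≤ (2 * lo A - w A) / lo A := by
    rw [le_div_iff₀ h]; linarith
  rw [min_eq_left this, max_eq_right zero_le_one, mul_one]

theorem be_eq_zero (h : 0 < lo A) (h1 : 2 * lo A ≤ w A) : be A = 0 := by
  unfold be
  have : (2 * lo A - w A) / lo A ≤ 0 := div_nonpos_of_nonpos_of_nonneg (by linarith) h.le
  rw [max_eq_left ((min_le_right _ _).trans this), mul_zero]

theorem be_nonneg (h : 0 < lo A) : 0 ≤ be A := by
  have := lo_le_hi (A := A)
  exact mul_nonneg (by linarith) (le_max_left _ _)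

theorem be_le_hi (h : 0 < lo A) : be A ≤ hi A := by
  have := lo_le_hi (A := A)
  unfold be
  have h2 : max 0 (min 1 ((2 * lo A - w A) / lo A)) ≤ 1 := max_le zero_le_one (min_le_left _ _)
  nlinarith

theorem al_le_be (h : 0 < lo A) : al A ≤ be A := by
  rcases le_total (w A) (lo A) with h1 | h1
  · rw [be_eq h h1]
    exact (al_le_lo h).trans lo_le_hi
  · rw [al_eq_zero (by linarith)]
    exact be_nonneg h

end params

/-! ### the values -/

section values

variable {K : Set ℝ} {A : NonemptyCompacts (ℝ × ℝ)}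

theorem slope_mem {p : ℝ × ℝ} (hp : p ∈ M0 K) (h : 0 < p.2) : p.1 / p.2 ∈ K := by
  obtain ⟨-, -, k, hk, hpk⟩ := hp
  rw [hpk, mul_div_cancel_left₀ _ h.ne']
  exact hk

theorem eq_slope {p : ℝ × ℝ} (h : 0 < p.2) : p = (p.2 * (p.1 / p.2), p.2) := by
  ext1
  · simp only
    rw [mul_div_cancel₀ _ h.ne']
  · rfl

theorem zero_mem_of_lo (hA : (A : Set (ℝ × ℝ)) ⊆ M0 K) (h : lo A ≤ 0) : (0, 0) ∈ A := by
  obtain ⟨p, hp, hpl⟩ := exists_lo (A := A)
  obtain ⟨h0, -, k, -, hk⟩ := hA hp
  have h2 : p.2 = 0 := le_antisymm (hpl.trans_le h) h0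
  have : p = (0, 0) := by
    ext1
    · rw [hk, h2, zero_mul]
    · exact h2
  rwa [← this]

theorem lo_nonneg (hA : (A : Set (ℝ × ℝ)) ⊆ M0 K) : 0 ≤ lo A := by
  obtain ⟨p, hp, hpl⟩ := exists_lo (A := A)
  rw [← hpl]
  exact (hA hp).1

theorem hi_le_one (hA : (A : Set (ℝ × ℝ)) ⊆ M0 K) : hi A ≤ 1 := by
  obtain ⟨p, hp, hpl⟩ := exists_hi (A := A)
  rw [← hpl]
  exact (hA hp).2.1

theorem kM_mem (hA : (A : Set (ℝ × ℝ)) ⊆ M0 K) (h : 0 < lo A) : kM A ∈ K := by
  obtain ⟨p, hp, hpk⟩ := exists_kM h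
  rw [← hpk]
  exact slope_mem (hA hp) (lt_of_lt_of_le h (lo_le hp))

theorem H_subset (hA : (A : Set (ℝ × ℝ)) ⊆ M0 K) : (H A : Set (ℝ × ℝ)) ⊆ M0 K := by
  intro x hx
  obtain ⟨t, h0, h1, p, hp, rfl⟩ := mem_H.1 hx
  obtain ⟨hp0, hp1, k, hk, hpk⟩ := hA hp
  exact ⟨mul_nonneg h0 hp0, mul_le_one₀ h1 hp0 hp1, k, hk, by simp only [hpk]; ring⟩

theorem R_subset (hA : (A : Set (ℝ × ℝ)) ⊆ M0 K) : (R A : Set (ℝ × ℝ)) ⊆ M0 K := by
  rcases le_or_gt (lo A) 0 with h | h
  · rw [R_of_le h]
    exact H_subset hA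
  · rw [R_of_pos h]
    have e1 := al_nonneg (A := A)
    have e2 := al_le_be h
    have e3 := be_le_hi h
    have e4 := hi_le_one hA
    have seg : ∀ c : ℝ, 0 ≤ c → c ≤ 1 → ((c * kM A, c) : ℝ × ℝ) ∈ M0 K := fun c h0 h1 =>
      ⟨h0, h1, kM A, kM_mem hA h, rfl⟩
    intro x hx
    rcases mem_G.1 hx with ⟨t, h0, h1, rfl⟩ | ⟨t, h0, h1, p, hp, rfl⟩
    · exact seg _ (by nlinarith) (by nlinarith)
    · rcases al_or_la h with ha | hl
      · rw [ha]
        obtain ⟨hp0, hp1, k, hk, hpk⟩ := hA hp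
        have f1 : 0 ≤ t * la A := mul_nonneg h0 la_nonneg
        have f2 : t * la A ≤ 1 := mul_le_one₀ h1 la_nonneg la_le_one
        refine ⟨by simp only [zero_add]; exact mul_nonneg f1 hp0,
          by simp only [zero_add]; exact mul_le_one₀ f2 hp0 hp1, k, hk, ?_⟩
        simp only [hpk]; ring
      · rw [hl]
        simp only [mul_zero, zero_mul, add_zero]
        exact seg _ e1 (by linarith)

theorem starConvex_H : StarConvex ℝ (0 : ℝ × ℝ) (H A : Set (ℝ × ℝ)) := by
  rw [starConvex_zero_iff]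
  intro x hx a h0 h1
  obtain ⟨t, ht0, ht1, p, hp, rfl⟩ := mem_H.1 hx
  refine mem_H.2 ⟨a * t, mul_nonneg h0 ht0, mul_le_one₀ h1 ht0 ht1, p, hp, ?_⟩
  ext1 <;> simp [mul_assoc]

theorem zero_mem_H : (0 : ℝ × ℝ) ∈ (H A : Set (ℝ × ℝ)) := by
  obtain ⟨p, hp⟩ := A.nonempty
  exact mem_H.2 ⟨0, le_rfl, zero_le_one, p, hp, by ext1 <;> simp⟩

theorem isConnected_R : IsConnected (R A : Set (ℝ × ℝ)) := by
  rcases le_or_gt (lo A) 0 with h | h
  · rw [R_of_le h]
    exact (starConvex_H.isPathConnected zero_mem_H).isConnected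
  · rw [R_of_pos h]
    rcases al_or_la h with ha | hl
    · refine (StarConvex.isPathConnected (a := (0 : ℝ × ℝ)) ?_ ?_).isConnected
      swap
      · refine mem_G.2 (Or.inl ⟨0, le_rfl, zero_le_one, ?_⟩)
        rw [ha]
        ext1 <;> simp
      rw [starConvex_zero_iff]
      intro x hx a h0 h1
      rw [mem_G] at hx ⊢
      rw [ha] at hx ⊢
      rcases hx with ⟨t, ht0, ht1, rfl⟩ | ⟨t, ht0, ht1, p, hp, rfl⟩
      · refine Or.inl ⟨a * t, mul_nonneg h0 ht0, mul_le_one₀ h1 ht0 ht1, ?_⟩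
        ext1 <;> simp <;> ring
      · refine Or.inr ⟨a * t, mul_nonneg h0 ht0, mul_le_one₀ h1 ht0 ht1, p, hp, ?_⟩
        ext1 <;> simp <;> ring
    · have : (G (al A) (be A) (la A) (kM A) A : Set (ℝ × ℝ)) =
          (fun t : ℝ => ((al A + t * (be A - al A)) * kM A, al A + t * (be A - al A))) '' Icc 0 1 := by
        ext x
        rw [mem_G, hl]
        constructor
        · rintro (⟨t, ht0, ht1, rfl⟩ | ⟨t, ht0, ht1, p, hp, rfl⟩)
          · exact ⟨t, ⟨ht0, ht1⟩, rfl⟩
          · exact ⟨0, ⟨le_rfl, zero_le_one⟩, by simp⟩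
        · rintro ⟨t, ⟨ht0, ht1⟩, rfl⟩
          exact Or.inl ⟨t, ht0, ht1, rfl⟩
      rw [this]
      exact (isConnected_Icc zero_le_one).image _ (by fun_prop)

theorem seg_mem {α β c : ℝ} (h1 : α ≤ c) (h2 : c ≤ β) :
    ∃ t : ℝ, 0 ≤ t ∧ t ≤ 1 ∧ α + t * (β - α) = c := by
  rcases (h1.trans h2).eq_or_lt with h | h
  · exact ⟨0, le_rfl, zero_le_one, by rw [zero_mul, add_zero]; linarith⟩
  · have h3 : 0 < β - α := by linarith
    refine ⟨(c - α) / (β - α), div_nonneg (by linarith) h3.le, ?_, ?_⟩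
    · rw [div_le_one h3]; linarith
    · rw [div_mul_cancel₀ _ h3.ne']; ring

theorem dist_R_H (hK : K ⊆ Icc 0 1) (hA : (A : Set (ℝ × ℝ)) ⊆ M0 K) :
    dist (R A) (H A) ≤ 2 * lo A := by
  rcases le_or_gt (lo A) 0 with h | h
  · rw [R_of_le h, dist_self]
    have := lo_nonneg hA
    linarith
  · rw [R_of_pos h, NonemptyCompacts.dist_eq]
    have e1 := al_nonneg (A := A)
    have e2 := al_le_be h
    have e3 := be_le_hi h
    have e4 := hi_le_one hA
    have e5 := al_le_lo h
    have hkM := hK (kM_mem hA h)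
    have hseg : ∀ c : ℝ, al A ≤ c → c ≤ be A → ∃ y ∈ (H A : Set (ℝ × ℝ)),
        dist ((c * kM A, c) : ℝ × ℝ) y ≤ 2 * lo A := by
      intro c hc1 hc2
      rcases le_total (2 * lo A) (w A) with hw | hw
      · have hb := be_eq_zero h hw
        have hc : c = 0 := by linarith
        obtain ⟨p, hp⟩ := A.nonempty
        refine ⟨(0 * p.1, 0 * p.2), mem_H.2 ⟨0, le_rfl, zero_le_one, p, hp, rfl⟩, ?_⟩
        rw [hc]
        simp only [zero_mul, dist_self]
        linarith
      · obtain ⟨p, hp, hph⟩ := exists_hi (A := A)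
        have hp2 : 0 < p.2 := lt_of_lt_of_le h (lo_le hp)
        have hc0 : 0 ≤ c / p.2 := div_nonneg (by linarith) hp2.le
        have hc1' : c / p.2 ≤ 1 := by rw [div_le_one hp2]; linarith
        refine ⟨(c / p.2 * p.1, c / p.2 * p.2), mem_H.2 ⟨c / p.2, hc0, hc1', p, hp, rfl⟩, ?_⟩
        have f1 := le_kM h hp
        have f2 := km_le h hp
        have f3 : w A = kM A - km A := rfl
        have f4 : c / p.2 * p.1 = c * (p.1 / p.2) := by ring
        rw [Prod.dist_eq, f4, div_mul_cancel₀ _ hp2.ne']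
        simp only [dist_self]
        refine max_le ?_ (by linarith)
        rw [Real.dist_eq, ← mul_sub, abs_mul, abs_of_nonneg (by linarith : (0 : ℝ) ≤ c),
          abs_of_nonneg (by linarith)]
        nlinarith
    refine hausdorffDist_le_of_mem_dist (by linarith) ?_ ?_
    · intro x hx
      rcases mem_G.1 hx with ⟨t, h0, h1, rfl⟩ | ⟨t, h0, h1, p, hp, rfl⟩
      · exact hseg _ (by nlinarith) (by nlinarith)
      · rcases al_or_la h with ha | hl
        · rw [ha]
          refine ⟨(t * la A * p.1, t * la A * p.2), mem_H.2 ⟨t * la A, mul_nonneg h0 la_nonneg,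
            mul_le_one₀ h1 la_nonneg la_le_one, p, hp, rfl⟩, ?_⟩
          simp only [zero_mul, zero_add, dist_self]
          linarith
        · rw [hl]
          simp only [mul_zero, zero_mul, add_zero]
          exact hseg _ le_rfl e2
    · intro x hx
      obtain ⟨t, h0, h1, p, hp, rfl⟩ := mem_H.1 hx
      rcases le_total (lo A) (w A) with hw | hw
      · refine ⟨_, mem_G.2 (Or.inr ⟨t, h0, h1, p, hp, rfl⟩), ?_⟩
        rw [la_eq_one h hw, al_eq_zero (by linarith)]
        simp only [zero_mul, zero_add, mul_one, dist_self]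
        linarith
      · have hb := be_eq h hw
        have hp2 : 0 < p.2 := lt_of_lt_of_le h (lo_le hp)
        have hph := le_hi hp
        have g1 : 0 ≤ t * p.2 := mul_nonneg h0 hp2.le
        have g2 : t * p.2 ≤ be A := by rw [hb]; nlinarith
        obtain ⟨τ, hτ0, hτ1, hτ⟩ := seg_mem (le_max_left (al A) (t * p.2))
          (max_le e2 g2)
        refine ⟨_, mem_G.2 (Or.inl ⟨τ, hτ0, hτ1, rfl⟩), ?_⟩
        rw [hτ]
        set c := max (al A) (t * p.2) with hc
        have f1 := le_kM h hp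
        have f2 := km_le h hp
        have f3 : w A = kM A - km A := rfl
        have f4 : t * p.1 = t * p.2 * (p.1 / p.2) := by
          rw [mul_assoc, mul_div_cancel₀ _ hp2.ne']
        have f5 : |t * p.2 - c| ≤ lo A := by
          rw [abs_le]
          constructor
          · have : c ≤ al A + t * p.2 := max_le (by linarith) (by linarith)
            linarith
          · have : t * p.2 ≤ c := le_max_right _ _
            linarith
        rw [Prod.dist_eq, f4]
        simp only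
        refine max_le ?_ (by rw [Real.dist_eq]; linarith)
        have f6 : t * p.2 * (p.1 / p.2) - c * kM A =
          t * p.2 * (p.1 / p.2 - kM A) + (t * p.2 - c) * kM A := by ring
        rw [Real.dist_eq, f6]
        refine (abs_add_le _ _).trans ?_
        rw [abs_mul (t * p.2), abs_mul (t * p.2 - c), abs_of_nonneg g1, abs_of_nonneg hkM.1]
        have f7 : |p.1 / p.2 - kM A| ≤ w A := by
          rw [abs_le]; constructor <;> linarith
        have f8 : t * p.2 ≤ 1 := by linarith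
        have f9 := abs_nonneg (p.1 / p.2 - kM A)
        have f10 := abs_nonneg (t * p.2 - c)
        nlinarith [hkM.2, mul_le_mul f8 f7 f9 zero_le_one, mul_le_mul f5 hkM.2 hkM.1 h.le]

end values

/-! ### continuity -/

theorem continuousOn_R {K : Set ℝ} (hK : K ⊆ Icc 0 1) :
    ContinuousOn R {A | (A : Set (ℝ × ℝ)) ⊆ M0 K} := by
  intro A hA
  rcases le_or_gt (lo A) 0 with h | h
  · -- the vertex belongs to `A`
    have hlo : lo A = 0 := le_antisymm h (lo_nonneg hA)
    show Filter.Tendsto R (𝓝[{A | (A : Set (ℝ × ℝ)) ⊆ M0 K}] A) (𝓝 (R A))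
    rw [R_of_le h]
    have hH : Filter.Tendsto H (𝓝[{A | (A : Set (ℝ × ℝ)) ⊆ M0 K}] A) (𝓝 (H A)) :=
      continuous_H.continuousAt.mono_left nhdsWithin_le_nhds
    have hl : Filter.Tendsto (fun B => 2 * lo B) (𝓝[{A | (A : Set (ℝ × ℝ)) ⊆ M0 K}] A) (𝓝 0) := by
      have : Filter.Tendsto (fun B => 2 * lo B) (𝓝 A) (𝓝 (2 * lo A)) :=
        (continuous_const.mul continuous_lo).continuousAt
      rw [hlo, mul_zero] at this
      exact this.mono_left nhdsWithin_le_nhds
    rw [tendsto_iff_dist_tendsto_zero] at hH ⊢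
    refine squeeze_zero' (Filter.Eventually.of_forall fun B => dist_nonneg) ?_
      (by simpa using hl.add hH)
    filter_upwards [self_mem_nhdsWithin] with B hB
    exact (dist_triangle _ (H B) _).trans (by linarith [dist_R_H hK hB])
  · refine ContinuousAt.continuousWithinAt ?_
    set c := lo A / 2 with hc
    have hc0 : 0 < c := half_pos h
    have hev : ∀ᶠ B in 𝓝 A, c < lo B :=
      continuous_lo.continuousAt.eventually (lt_mem_nhds (by linarith))
    have hkM : ContinuousAt kM A := by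
      refine (continuous_kMc hc0).continuousAt.congr ?_
      filter_upwards [hev] with B hB using kMc_eq hB.le
    have hkm : ContinuousAt km A := by
      refine (continuous_kmc hc0).continuousAt.congr ?_
      filter_upwards [hev] with B hB using kmc_eq hB.le
    have hlo := continuous_lo.continuousAt (x := A)
    have hhi := continuous_hi.continuousAt (x := A)
    have hw : ContinuousAt w A := hkM.sub hkm
    have hal : ContinuousAt al A := (hlo.sub (continuousAt_const.mul hw)).max continuousAt_const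
    have hla : ContinuousAt la A := continuousAt_const.max (continuousAt_const.min
      (((continuousAt_const.mul hw).sub hlo).div hlo h.ne'))
    have hbe : ContinuousAt be A := hhi.mul (continuousAt_const.max (continuousAt_const.min
      (((continuousAt_const.mul hlo).sub hw).div hlo h.ne')))
    have hG : ContinuousAt (fun B => G (al B) (be B) (la B) (kM B) B) A := by
      have := (continuous_G.continuousAt (x := ((al A, be A, la A, kM A), A))).comp
        (f := fun B => ((al B, be B, la B, kM B), B))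
        ((hal.prodMk (hbe.prodMk (hla.prodMk hkM))).prodMk continuousAt_id)
      exact this
    refine hG.congr ?_
    filter_upwards [hev] with B hB
    exact (R_of_pos (hc0.trans hB)).symm

/-! ### subcontinua are fixed -/

theorem exists_gap {K : Set ℝ} (hKd : ∀ C ⊆ K, IsPreconnected C → C.Subsingleton) {a b : ℝ}
    (hab : a < b) : ∃ x ∈ Ioo a b, x ∉ K := by
  by_contra hcon
  push Not at hcon
  have := hKd (Ioo a b) hcon isPreconnected_Ioo
  have h1 : (2 * a + b) / 3 ∈ Ioo a b := ⟨by linarith, by linarith⟩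
  have h2 : (a + 2 * b) / 3 ∈ Ioo a b := ⟨by linarith, by linarith⟩
  have := this h1 h2
  linarith

theorem H_eq {K : Set ℝ} (hKd : ∀ C ⊆ K, IsPreconnected C → C.Subsingleton)
    {A : NonemptyCompacts (ℝ × ℝ)} (hA : (A : Set (ℝ × ℝ)) ⊆ M0 K)
    (hc : IsConnected (A : Set (ℝ × ℝ))) (h0 : (0, 0) ∈ A) : H A = A := by
  refine SetLike.coe_injective (Subset.antisymm ?_ ?_)
  · intro x hx
    obtain ⟨t, ht0, ht1, p, hp, rfl⟩ := mem_H.1 hx
    by_contra hnot
    obtain ⟨hp0, hp1, k, hk, hpk⟩ := hA hp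
    -- `p` is not the origin and `0 < t < 1`
    have hp2 : 0 < p.2 := by
      rcases hp0.lt_or_eq with h | h
      · exact h
      · exfalso
        apply hnot
        rw [hpk, ← h]
        simpa using h0
    have ht0' : 0 < t := by
      rcases ht0.lt_or_eq with h | h
      · exact h
      · exfalso
        apply hnot
        rw [← h]
        simpa using h0
    have ht1' : t < 1 := by
      rcases ht1.lt_or_eq with h | h
      · exact h
      · exfalso
        apply hnot
        rw [h]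
        simpa using hp
    -- a neighbourhood of the missing point
    have hopen : IsOpen (A : Set (ℝ × ℝ))ᶜ := A.isCompact.isClosed.isOpen_compl
    have hcont : Continuous fun k' : ℝ => ((t * p.2 * k', t * p.2) : ℝ × ℝ) := by fun_prop
    have hnot' : ((t * p.2 * k, t * p.2) : ℝ × ℝ) ∈ (A : Set (ℝ × ℝ))ᶜ := by
      have : ((t * p.2 * k, t * p.2) : ℝ × ℝ) = (t * p.1, t * p.2) := by
        rw [hpk]; ext1 <;> ring
      rw [this]
      exact hnot
    obtain ⟨δ, hδ, hball⟩ := Metric.isOpen_iff.1 (hopen.preimage hcont) k hnot'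
    obtain ⟨k1, ⟨hk1, hk1'⟩, hk1K⟩ := exists_gap hKd (show k - δ < k by linarith)
    obtain ⟨k2, ⟨hk2, hk2'⟩, hk2K⟩ := exists_gap hKd (show k < k + δ by linarith)
    set U : Set (ℝ × ℝ) := {q | t * p.2 < q.2 ∧ k1 * q.2 < q.1 ∧ q.1 < k2 * q.2} with hU
    set V : Set (ℝ × ℝ) := {q | q.2 < t * p.2 ∨ q.1 < k1 * q.2 ∨ k2 * q.2 < q.1} with hV
    have hUo : IsOpen U := by
      refine IsOpen.and ?_ (IsOpen.and ?_ ?_) <;> exact isOpen_lt (by fun_prop) (by fun_prop)
    have hVo : IsOpen V := by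
      refine IsOpen.union (s₁ := {q : ℝ × ℝ | q.2 < t * p.2}) ?_
        (IsOpen.union (s₁ := {q : ℝ × ℝ | q.1 < k1 * q.2}) (s₂ := {q : ℝ × ℝ | k2 * q.2 < q.1}) ?_ ?_)
        <;> exact isOpen_lt (by fun_prop) (by fun_prop)
    have hcov : (A : Set (ℝ × ℝ)) ⊆ U ∪ V := by
      intro q hq
      obtain ⟨hq0, hq1, k', hk', hqk⟩ := hA hq
      by_contra hno
      rw [mem_union, not_or] at hno
      obtain ⟨hnU, hnV⟩ := hno
      have hv : ¬ (q.2 < t * p.2 ∨ q.1 < k1 * q.2 ∨ k2 * q.2 < q.1) := hnV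
      push Not at hv
      obtain ⟨hv1, hv2, hv3⟩ := hv
      have hq2 : 0 < q.2 := lt_of_lt_of_le (mul_pos ht0' hp2) hv1
      have hk1'' : k1 ≤ k' := by
        rw [hqk, mul_comm k1] at hv2
        exact le_of_mul_le_mul_left hv2 hq2
      have hk2'' : k' ≤ k2 := by
        rw [hqk, mul_comm k2] at hv3
        exact le_of_mul_le_mul_left hv3 hq2
      have hk1s : k1 < k' := lt_of_le_of_ne hk1'' fun he => hk1K (he ▸ hk')
      have hk2s : k' < k2 := lt_of_le_of_ne hk2'' fun he => hk2K (he ▸ hk')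
      rcases hv1.lt_or_eq with h | h
      · apply hnU
        refine ⟨h, ?_, ?_⟩
        · rw [hqk]; nlinarith
        · rw [hqk]; nlinarith
      · have hmem : k' ∈ Metric.ball k δ := by
          rw [Metric.mem_ball, Real.dist_eq, abs_lt]
          constructor <;> linarith
        have := hball hmem
        apply this
        show ((t * p.2 * k', t * p.2) : ℝ × ℝ) ∈ (A : Set (ℝ × ℝ))
        have hqe : q = (t * p.2 * k', t * p.2) := by
          ext1
          · rw [hqk, h]
          · exact h.symm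
        rw [← hqe]
        exact hq
    obtain ⟨q, hq, hqU, hqV⟩ := hc.isPreconnected U V hUo hVo hcov
      ⟨p, hp, by
        refine ⟨by nlinarith, ?_, ?_⟩
        · rw [hpk]; nlinarith
        · rw [hpk]; nlinarith⟩
      ⟨(0, 0), h0, Or.inl (mul_pos ht0' hp2)⟩
    obtain ⟨g1, g2, g3⟩ := hqU
    rcases hqV with g | g | g <;> linarith
  · intro p hp
    exact mem_H.2 ⟨1, zero_le_one, le_rfl, p, hp, by simp⟩

theorem R_eq {K : Set ℝ} (hKd : ∀ C ⊆ K, IsPreconnected C → C.Subsingleton)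
    {A : NonemptyCompacts (ℝ × ℝ)} (hA : (A : Set (ℝ × ℝ)) ⊆ M0 K)
    (hc : IsConnected (A : Set (ℝ × ℝ))) : R A = A := by
  rcases le_or_gt (lo A) 0 with h | h
  · rw [R_of_le h]
    exact H_eq hKd hA hc (zero_mem_of_lo hA h)
  · have hpos : ∀ p ∈ A, 0 < p.2 := fun p hp => lt_of_lt_of_le h (lo_le hp)
    -- all slopes agree
    have hsub := hKd ((fun p : ℝ × ℝ => p.1 / p.2) '' (A : Set (ℝ × ℝ))) (by
      rintro _ ⟨p, hp, rfl⟩
      exact slope_mem (hA hp) (hpos p hp)) (hc.isPreconnected.image _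
        (continuousOn_fst.div continuousOn_snd fun p hp => (hpos p hp).ne'))
    obtain ⟨pM, hpM, hpM'⟩ := exists_kM h
    obtain ⟨pm, hpm, hpm'⟩ := exists_km h
    have hw : w A = 0 := by
      have : pM.1 / pM.2 = pm.1 / pm.2 := hsub ⟨pM, hpM, rfl⟩ ⟨pm, hpm, rfl⟩
      unfold w
      rw [← hpM', ← hpm', this, sub_self]
    have hslope : ∀ p ∈ A, p = (p.2 * kM A, p.2) := by
      intro p hp
      have : p.1 / p.2 = pM.1 / pM.2 := hsub ⟨p, hp, rfl⟩ ⟨pM, hpM, rfl⟩
      rw [← hpM', ← this]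
      exact eq_slope (hpos p hp)
    have hal : al A = lo A := by
      unfold al
      rw [hw]
      simp [h.le]
    have hbe : be A = hi A := be_eq h (by rw [hw]; exact h.le)
    have hla : la A = 0 := by
      rcases al_or_la h with h1 | h1
      · rw [hal] at h1; linarith
      · exact h1
    rw [R_of_pos h]
    refine SetLike.coe_injective ?_
    ext x
    rw [mem_G, hal, hbe, hla]
    -- the heights form an interval
    have hint : ∀ c : ℝ, lo A ≤ c → c ≤ hi A → ((c * kM A, c) : ℝ × ℝ) ∈ A := by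
      intro c hc1 hc2
      have hpre : IsPreconnected (Prod.snd '' (A : Set (ℝ × ℝ))) :=
        hc.isPreconnected.image _ continuousOn_snd
      obtain ⟨p, hp, hpl⟩ := exists_lo (A := A)
      obtain ⟨q, hq, hqh⟩ := exists_hi (A := A)
      obtain ⟨y, hy, hyc⟩ := hpre.ordConnected.out ⟨p, hp, hpl⟩ ⟨q, hq, hqh⟩ ⟨hc1, hc2⟩
      have := hslope y hy
      rw [hyc] at this
      rw [← this]
      exact hy
    have hlh := lo_le_hi (A := A)
    constructor
    · rintro (⟨t, h0, h1, rfl⟩ | ⟨t, h0, h1, p, hp, rfl⟩)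
      · exact hint _ (by nlinarith) (by nlinarith)
      · simp only [mul_zero, zero_mul, add_zero]
        exact hint _ le_rfl hlh
    · intro hx
      left
      obtain ⟨t, h0, h1, ht⟩ := seg_mem (lo_le hx) (le_hi hx)
      refine ⟨t, h0, h1, ?_⟩
      rw [ht]
      exact hslope x hx

/-! ### transfer to spaces embedded as fans -/

/-- If `M` embeds in the plane as the fan over a totally disconnected set of slopes, then the
hyperspace of nonempty compact subsets of `M` retracts onto the hyperspace of subcontinua. -/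
theorem exists_retraction {M : Type*} [TopologicalSpace M] {K : Set ℝ} (hK : K ⊆ Icc 0 1)
    (hKd : ∀ C ⊆ K, IsPreconnected C → C.Subsingleton) {e : M → ℝ × ℝ} (he : IsEmbedding e)
    (hrange : range e = M0 K) :
    ∃ r : NonemptyCompacts M → {A : NonemptyCompacts M // IsConnected (A : Set M)},
      Continuous r ∧ ∀ A : {A : NonemptyCompacts M // IsConnected (A : Set M)}, r A.1 = A := by
  have hsub : ∀ A : NonemptyCompacts M, ((A.map e he.continuous : NonemptyCompacts (ℝ × ℝ)) :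
      Set (ℝ × ℝ)) ⊆ M0 K := by
    intro A
    rw [NonemptyCompacts.coe_map, ← hrange]
    exact image_subset_range _ _
  have hex : ∀ A : NonemptyCompacts M, ∃ B : NonemptyCompacts M,
      B.map e he.continuous = R (A.map e he.continuous) := by
    intro A
    have h1 : (R (A.map e he.continuous) : Set (ℝ × ℝ)) ⊆ range e := by
      rw [hrange]; exact R_subset (hsub A)
    have h2 : e '' (e ⁻¹' (R (A.map e he.continuous) : Set (ℝ × ℝ))) =
        R (A.map e he.continuous) := image_preimage_eq_of_subset h1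
    refine ⟨⟨⟨e ⁻¹' (R (A.map e he.continuous) : Set (ℝ × ℝ)), ?_⟩, ?_⟩, ?_⟩
    · rw [he.isCompact_iff, h2]
      exact (R (A.map e he.continuous)).isCompact
    · show (e ⁻¹' (R (A.map e he.continuous) : Set (ℝ × ℝ))).Nonempty
      rw [← image_nonempty (f := e), h2]
      exact (R (A.map e he.continuous)).nonempty
    · refine SetLike.coe_injective ?_
      rw [NonemptyCompacts.coe_map]
      exact h2
  choose r hr using hex
  have hemb := he.nonemptyCompacts_map
  have hconn : ∀ A, IsConnected (r A : Set M) := by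
    intro A
    have h1 : IsConnected (e '' (r A : Set M)) := by
      have := congrArg (fun B : NonemptyCompacts (ℝ × ℝ) => (B : Set (ℝ × ℝ))) (hr A)
      simp only [NonemptyCompacts.coe_map] at this
      rw [this]
      exact isConnected_R
    exact ⟨(r A).nonempty, he.isInducing.isPreconnected_image.1 h1.isPreconnected⟩
  have hcont : Continuous r := by
    rw [hemb.continuous_iff]
    have : (NonemptyCompacts.map e he.continuous ∘ r) =
        fun A => R (A.map e he.continuous) := funext hr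
    rw [this]
    exact (continuousOn_R hK).comp_continuous hemb.continuous hsub
  refine ⟨fun A => ⟨r A, hconn A⟩, hcont.subtype_mk _, ?_⟩
  rintro ⟨A, hA⟩
  refine Subtype.ext ?_
  apply hemb.injective
  show (r A).map e he.continuous = A.map e he.continuous
  rw [hr]
  refine R_eq hKd (hsub A) ?_
  rw [NonemptyCompacts.coe_map]
  exact hA.image _ he.continuous.continuousOn

end Pool.Agent.W621.Fan
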