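import Mathlib
import Pool.Agent.W621.Fan

/-!
Cones over compact totally disconnected metric spaces are planar fans; the harmonic fan.
-/

set_option autoImplicit false

open Set Topology Metric TopologicalSpace

namespace Pool.Agent.W621.ConeFan

open Pool.Agent.W621.Fan

/-- A compact metric space with at most one limit point is totally disconnected. -/
theorem td_of_limit {Z : Type*} [MetricSpace Z]
    (h : ∃! z : Z, AccPt z (Filter.principal univ)) : TotallyDisconnectedSpace Z := by
  obtain ⟨z, -, hz⟩ := h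
  have hiso : ∀ x : Z, x ≠ z → IsOpen ({x} : Set Z) := by
    intro x hx
    rw [isOpen_singleton_iff_punctured_nhds]
    by_contra hne
    apply hx
    apply hz
    rw [accPt_principal_iff_nhdsWithin]
    have : (univ : Set Z) \ {x} = {x}ᶜ := by ext; simp
    rw [this]
    exact ⟨hne⟩
  refine ⟨fun C _ hC x hx y hy => ?_⟩
  by_contra hxy
  have key : ∀ a ∈ C, ∀ b ∈ C, a ≠ b → a ≠ z → False := by
    intro a ha b hb hab haz
    obtain ⟨c, -, h1, h2⟩ := hC {a} {a}ᶜ (hiso a haz) isClosed_singleton.isOpen_compl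
      (by rw [union_compl_self]; exact subset_univ _) ⟨a, ha, rfl⟩ ⟨b, hb, fun h => hab h.symm⟩
    exact h2 h1
  by_cases h1 : x = z
  · exact key y hy x hx (Ne.symm hxy) (fun h => hxy (h1.trans h.symm))
  · exact key x hx y hy hxy h1

/-- A compact totally disconnected metric space embeds in the unit interval. -/
theorem exists_slopes (Z : Type*) [MetricSpace Z] [CompactSpace Z] [TotallyDisconnectedSpace Z] :
    ∃ φ : Z → ℝ, Continuous φ ∧ Function.Injective φ ∧ ∀ z, φ z ∈ Icc (0 : ℝ) 1 := by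
  classical
  have : Countable (Clopens Z) := Clopens.countable_iff_secondCountable.2 inferInstance
  obtain ⟨f, hf⟩ := exists_surjective_nat (Clopens Z)
  let ψ : Z → (ℕ → Bool) := fun z n => decide (z ∈ f n)
  have hψ : Continuous ψ := by
    refine continuous_pi fun n => ?_
    rw [continuous_bool_rng true]
    have : (fun z => ψ z n) ⁻¹' {true} = (f n : Set Z) := by
      ext z
      simp [ψ]
    rw [this]
    exact (f n).isClopen
  have hinj : Function.Injective ψ := by
    intro x y hxy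
    by_contra hne
    obtain ⟨U, hU, hx, hy⟩ := exists_isClopen_of_totally_separated hne
    obtain ⟨n, hn⟩ := hf ⟨U, hU⟩
    have := congrFun hxy n
    simp only [ψ, hn, decide_eq_decide] at this
    exact hy (this.1 hx)
  refine ⟨fun z => (cantorSetHomeomorphNatToBool.symm (ψ z) : ℝ), ?_, ?_, ?_⟩
  · exact continuous_subtype_val.comp (cantorSetHomeomorphNatToBool.symm.continuous.comp hψ)
  · exact Subtype.val_injective.comp (cantorSetHomeomorphNatToBool.symm.injective.comp hinj)
  · intro z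
    exact cantorSet_subset_unitInterval (cantorSetHomeomorphNatToBool.symm (ψ z)).2

/-- Retractions of hyperspaces exist for spaces which are the image of `Z × [0,1]` under a quotient
map collapsing exactly `Z × {1}`. -/
theorem exists_retraction_cone {Z : Type*} [MetricSpace Z] [CompactSpace Z]
    [TotallyDisconnectedSpace Z] {M : Type*} [TopologicalSpace M] [T2Space M]
    (π : Z × unitInterval → M) (hπ : Continuous π) (hsurj : Function.Surjective π)
    (hker : ∀ p q, π p = π q ↔ p = q ∨ (p.2 = 1 ∧ q.2 = 1)) :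
    ∃ r : NonemptyCompacts M → {A : NonemptyCompacts M // IsConnected (A : Set M)},
      Continuous r ∧ ∀ A : {A : NonemptyCompacts M // IsConnected (A : Set M)}, r A.1 = A := by
  classical
  obtain ⟨φ, hφ, hinj, hI⟩ := exists_slopes Z
  have hemb : IsEmbedding φ := (hφ.isClosedEmbedding hinj).isEmbedding
  have : CompactSpace M := hsurj.compactSpace hπ
  have hquot : IsQuotientMap π := hπ.isClosedMap.isQuotientMap hπ hsurj
  let g : Z × unitInterval → ℝ × ℝ := fun p => ((1 - (p.2 : ℝ)) * φ p.1, 1 - (p.2 : ℝ))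
  have hg : Continuous g := by
    have := hφ
    fun_prop
  have hg' : ∀ p q, π p = π q ↔ g p = g q := by
    intro p q
    rw [hker]
    constructor
    · rintro (h | ⟨h1, h2⟩)
      · rw [h]
      · simp [g, h1, h2]
    · intro h
      obtain ⟨h1, h2⟩ := Prod.mk.inj h
      have h3 : p.2 = q.2 := Subtype.ext (by linarith)
      by_cases h4 : p.2 = 1
      · exact Or.inr ⟨h4, by rw [← h3]; exact h4⟩
      · left
        have h5 : (1 - (p.2 : ℝ)) ≠ 0 := fun h => h4 (Subtype.ext (by
          have : (p.2 : ℝ) = 1 := by linarith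
          simpa using this))
        rw [h3] at h1 h5
        exact Prod.ext (hinj (mul_left_cancel₀ h5 h1)) h3
  let e : M → ℝ × ℝ := fun m => g (Function.surjInv hsurj m)
  have heπ : ∀ p, e (π p) = g p := fun p => (hg' _ _).1 (Function.surjInv_eq hsurj (π p))
  have hec : Continuous e := by
    rw [hquot.continuous_iff]
    exact hg.congr fun p => (heπ p).symm
  have heinj : Function.Injective e := by
    intro a b h
    obtain ⟨p, rfl⟩ := hsurj a
    obtain ⟨q, rfl⟩ := hsurj b
    rw [heπ, heπ] at h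
    exact (hg' _ _).2 h
  refine exists_retraction (K := range φ) ?_ ?_ (hec.isClosedEmbedding heinj).isEmbedding ?_
  · rintro _ ⟨z, rfl⟩
    exact hI z
  · exact (hemb.isTotallyDisconnected_range).2 inferInstance
  · apply Subset.antisymm
    · rintro _ ⟨m, rfl⟩
      obtain ⟨p, rfl⟩ := hsurj m
      rw [heπ]
      have h1 := p.2.2.1
      have h2 := p.2.2.2
      exact ⟨by simp only [g]; linarith, by simp only [g]; linarith, φ p.1, ⟨p.1, rfl⟩, rfl⟩
    · rintro ⟨x, s⟩ ⟨h0, h1, k, ⟨z, rfl⟩, hk⟩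
      simp only at h0 h1 hk
      refine ⟨π (z, ⟨1 - s, by linarith, by linarith⟩), ?_⟩
      rw [heπ]
      simp only [g, hk, sub_sub_cancel]

/-! ### the harmonic fan -/

/-- the slopes of the harmonic fan -/
def KH : Set ℝ := insert 0 (range fun n : ℕ => 1 / ((n : ℝ) + 1))

theorem KH_sub : KH ⊆ Icc 0 1 := by
  rintro x (rfl | ⟨n, rfl⟩)
  · exact ⟨le_rfl, zero_le_one⟩
  · refine ⟨by positivity, ?_⟩
    rw [div_le_one (by positivity)]
    have : (0 : ℝ) ≤ n := Nat.cast_nonneg n
    linarith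

theorem KH_compact : IsCompact KH :=
  tendsto_one_div_add_atTop_nhds_zero_nat.isCompact_insert_range

theorem KH_td : IsTotallyDisconnected KH :=
  Set.Countable.isTotallyDisconnected ((countable_range _).insert _)

/-- the harmonic fan in the plane -/
abbrev HF : Type := ↥(M0 KH)

theorem isCompact_HF : IsCompact (M0 KH) := by
  have : M0 KH = (fun q : ℝ × ℝ => (q.1 * q.2, q.1)) '' (Icc 0 1 ×ˢ KH) := by
    ext p
    constructor
    · rintro ⟨h0, h1, k, hk, hpk⟩
      exact ⟨(p.2, k), ⟨⟨h0, h1⟩, hk⟩, Prod.ext hpk.symm rfl⟩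
    · rintro ⟨⟨s, k⟩, ⟨⟨h0, h1⟩, hk⟩, rfl⟩
      exact ⟨h0, h1, k, hk, rfl⟩
  rw [this]
  exact (isCompact_Icc.prod KH_compact).image (by fun_prop)

instance : CompactSpace HF := isCompact_iff_compactSpace.1 isCompact_HF

theorem zero_mem_HF : (0 : ℝ × ℝ) ∈ M0 KH :=
  ⟨le_rfl, zero_le_one, 0, Or.inl rfl, by simp⟩

instance : ConnectedSpace HF := by
  refine isConnected_iff_connectedSpace.1 (IsPathConnected.isConnected
    (StarConvex.isPathConnected (a := (0 : ℝ × ℝ)) ?_ zero_mem_HF))
  rw [starConvex_zero_iff]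
  rintro x ⟨h0, h1, k, hk, hxk⟩ a ha0 ha1
  refine ⟨by simpa using mul_nonneg ha0 h0, by simpa using mul_le_one₀ ha1 h0 h1, k, hk, ?_⟩
  simp [hxk, mul_assoc]

theorem not_locallyConnected : ¬ LocallyConnectedSpace HF := by
  intro hlc
  let x0 : HF := ⟨(0, 1), by norm_num [M0, KH]⟩
  have hU : {x : HF | (1 / 2 : ℝ) < (x : ℝ × ℝ).2} ∈ 𝓝 x0 := by
    refine (isOpen_lt continuous_const (continuous_snd.comp continuous_subtype_val)).mem_nhds ?_
    show (1 / 2 : ℝ) < 1
    norm_num
  obtain ⟨V, ⟨hVo, hxV, hVc⟩, hVU⟩ :=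
    (LocallyConnectedSpace.open_connected_basis x0).mem_iff.1 hU
  -- the slopes of the points of `V` are all equal
  have hpos : ∀ x ∈ (Subtype.val '' V : Set (ℝ × ℝ)), 0 < x.2 := by
    rintro _ ⟨x, hx, rfl⟩
    have : (1 / 2 : ℝ) < (x : ℝ × ℝ).2 := hVU hx
    linarith
  have hsub := KH_td ((fun p : ℝ × ℝ => p.1 / p.2) '' (Subtype.val '' V)) (by
    rintro _ ⟨_, ⟨x, hx, rfl⟩, rfl⟩
    exact slope_mem x.2 (hpos _ ⟨x, hx, rfl⟩)) ((hVc.isPreconnected.image _
      continuous_subtype_val.continuousOn).image _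
      (continuousOn_fst.div continuousOn_snd fun p hp => (hpos p hp).ne'))
  -- but the tips of far legs belong to `V`
  let y : ℕ → HF := fun n => ⟨(1 / ((n : ℝ) + 1), 1), by
    refine ⟨zero_le_one, le_rfl, 1 / ((n : ℝ) + 1), Or.inr ⟨n, rfl⟩, by simp⟩⟩
  have hy : Filter.Tendsto y Filter.atTop (𝓝 x0) := by
    rw [tendsto_subtype_rng]
    exact (tendsto_one_div_add_atTop_nhds_zero_nat).prodMk_nhds tendsto_const_nhds
  obtain ⟨n, hn⟩ := (hy.eventually (hVo.mem_nhds hxV)).exists
  have h1 := hsub ⟨_, ⟨y n, hn, rfl⟩, rfl⟩ ⟨_, ⟨x0, hxV, rfl⟩, rfl⟩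
  simp only [y, x0] at h1
  have h2 : (0 : ℝ) < 1 / ((n : ℝ) + 1) := by positivity
  rw [div_one, div_one] at h1
  exact h2.ne' h1

end Pool.Agent.W621.ConeFan
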