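import Mathlib

/-!
A compact connected metrizable topological monoid in which `1` is the only unit and every path
through `1` is constant, and two continua built from it.
-/

set_option autoImplicit false

open Set Topology

namespace Pool.Agent.W621.Spiral

/-! ### the spiral monoid -/

/-- `r ↦ r e^{i log r}` -/
noncomputable def f (r : ℝ) : ℂ := (r : ℂ) * Complex.exp (Real.log r * Complex.I)

theorem norm_f (r : ℝ) : ‖f r‖ = |r| := by
  unfold f
  rw [norm_mul, Complex.norm_exp_ofReal_mul_I, mul_one, Complex.norm_real, Real.norm_eq_abs]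

theorem continuous_f : Continuous f := by
  rw [continuous_iff_continuousAt]
  intro r
  by_cases hr : r = 0
  · subst hr
    have h0 : f 0 = 0 := by simp [f]
    unfold ContinuousAt
    rw [h0, tendsto_zero_iff_norm_tendsto_zero]
    simp_rw [norm_f]
    have : Filter.Tendsto (fun r : ℝ => |r|) (𝓝 0) (𝓝 |0|) := continuous_abs.continuousAt
    simpa using this
  · unfold f
    refine ContinuousAt.mul Complex.continuous_ofReal.continuousAt ?_
    refine Complex.continuous_exp.continuousAt.comp (ContinuousAt.mul ?_ continuousAt_const)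
    exact Complex.continuous_ofReal.continuousAt.comp (Real.continuousAt_log hr)

theorem f_mul {r s : ℝ} (hr : 0 ≤ r) (hs : 0 ≤ s) : f r * f s = f (r * s) := by
  rcases hr.eq_or_lt with h | h
  · simp [f, ← h]
  · rcases hs.eq_or_lt with h' | h'
    · simp [f, ← h']
    · unfold f
      rw [Real.log_mul h.ne' h'.ne']
      push_cast
      rw [add_mul, Complex.exp_add]
      ring

/-- a disc and a ray spiralling to its boundary -/
def D : Set (ℝ × ℂ) := {p | 0 ≤ p.1 ∧ p.1 ≤ 1 ∧ ‖p.2‖ ≤ 1 ∧ (p.1 : ℂ) * p.2 = f p.1}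

theorem isClosed_D : IsClosed D := by
  have h4 : IsClosed {p : ℝ × ℂ | (p.1 : ℂ) * p.2 = f p.1} :=
    isClosed_eq (by have := Complex.continuous_ofReal; fun_prop) (continuous_f.comp continuous_fst)
  have h1 : IsClosed {p : ℝ × ℂ | 0 ≤ p.1} := isClosed_le continuous_const continuous_fst
  have h2 : IsClosed {p : ℝ × ℂ | p.1 ≤ 1} := isClosed_le continuous_fst continuous_const
  have h3 : IsClosed {p : ℝ × ℂ | ‖p.2‖ ≤ 1} :=
    isClosed_le continuous_snd.norm continuous_const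
  exact h1.inter (h2.inter (h3.inter h4))

theorem isCompact_D : IsCompact D := by
  refine Metric.isCompact_of_isClosed_isBounded isClosed_D ?_
  refine (Metric.isBounded_closedBall (x := (0 : ℝ × ℂ)) (r := 1)).subset ?_
  rintro p ⟨h0, h1, h2, -⟩
  rw [mem_closedBall_zero_iff, Prod.norm_def]
  exact max_le (by rw [Real.norm_eq_abs, abs_of_nonneg h0]; exact h1) h2

theorem mul_mem_D {p q : ℝ × ℂ} (hp : p ∈ D) (hq : q ∈ D) : p * q ∈ D := by
  obtain ⟨h0, h1, h2, h3⟩ := hp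
  obtain ⟨g0, g1, g2, g3⟩ := hq
  refine ⟨mul_nonneg h0 g0, mul_le_one₀ h1 g0 g1, ?_, ?_⟩
  · rw [Prod.snd_mul, norm_mul]
    exact mul_le_one₀ h2 (norm_nonneg _) g2
  · rw [Prod.fst_mul, Prod.snd_mul, ← f_mul h0 g0, ← h3, ← g3]
    push_cast
    ring

theorem one_mem_D : (1 : ℝ × ℂ) ∈ D := by
  refine ⟨zero_le_one, le_rfl, by simp, by simp [f]⟩

theorem zero_mem_D : (0 : ℝ × ℂ) ∈ D := by
  refine ⟨le_rfl, zero_le_one, by simp, by simp [f]⟩

theorem snd_eq {p : ℝ × ℂ} (hp : p ∈ D) (h : 0 < p.1) :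
    p.2 = Complex.exp (Real.log p.1 * Complex.I) := by
  have h3 := hp.2.2.2
  unfold f at h3
  have : (p.1 : ℂ) ≠ 0 := by exact_mod_cast h.ne'
  exact mul_left_cancel₀ this h3

theorem eq_one_of_fst {p : ℝ × ℂ} (hp : p ∈ D) (h : p.1 = 1) : p = 1 := by
  have h2 := snd_eq hp (by rw [h]; exact one_pos)
  ext1
  · exact h
  · rw [h2, h]; simp

theorem mul_eq_one {p q : ℝ × ℂ} (hp : p ∈ D) (hq : q ∈ D) (h : p * q = 1) : q = 1 := by
  have h1 : p.1 * q.1 = 1 := congrArg Prod.fst h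
  have h2 : q.1 = 1 := by
    refine le_antisymm hq.2.1 ?_
    have := mul_le_mul_of_nonneg_right hp.2.1 hq.1
    linarith
  exact eq_one_of_fst hq h2

/-- the point of the ray with first coordinate `r` -/
noncomputable def ray (r : ℝ) : ℝ × ℂ := (r, Complex.exp (Real.log r * Complex.I))

theorem ray_mem {r : ℝ} (h0 : 0 ≤ r) (h1 : r ≤ 1) : ray r ∈ D :=
  ⟨h0, h1, by simp only [ray]; rw [Complex.norm_exp_ofReal_mul_I], rfl⟩

theorem isConnected_D : IsConnected D := by
  have hray : IsConnected (ray '' Ioc 0 1) := by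
    refine ⟨⟨ray 1, 1, ⟨one_pos, le_rfl⟩, rfl⟩, isPreconnected_Ioc.image _ ?_⟩
    intro r hr
    refine ContinuousAt.continuousWithinAt (ContinuousAt.prodMk continuousAt_id ?_)
    refine Complex.continuous_exp.continuousAt.comp (ContinuousAt.mul ?_ continuousAt_const)
    exact Complex.continuous_ofReal.continuousAt.comp (Real.continuousAt_log hr.1.ne')
  have hlim : ((0, 1) : ℝ × ℂ) ∈ closure (ray '' Ioc 0 1) := by
    have ht : Filter.Tendsto (fun n : ℕ => ray (Real.exp (-(n * (2 * Real.pi)))))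
        Filter.atTop (𝓝 ((0, 1) : ℝ × ℂ)) := by
      refine Filter.Tendsto.prodMk_nhds ?_ ?_
      · refine Real.tendsto_exp_neg_atTop_nhds_zero.comp ?_
        exact tendsto_natCast_atTop_atTop.atTop_mul_const (by positivity)
      · refine tendsto_const_nhds.congr fun n => ?_
        rw [Real.log_exp]
        have := Complex.exp_eq_exp_iff_exists_int.2 ⟨-(n : ℤ), by
          show ((-(n * (2 * Real.pi)) : ℝ) : ℂ) * Complex.I = 0 + _
          push_cast; ring⟩
        rw [this, Complex.exp_zero]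
    refine mem_closure_of_tendsto ht (Filter.Eventually.of_forall fun n => ?_)
    refine ⟨_, ⟨Real.exp_pos _, ?_⟩, rfl⟩
    rw [Real.exp_le_one_iff]
    have : (0 : ℝ) ≤ n := Nat.cast_nonneg n
    have := Real.pi_pos
    nlinarith [mul_nonneg ‹(0 : ℝ) ≤ n› Real.pi_pos.le]
  have h1 : IsConnected (insert ((0, 1) : ℝ × ℂ) (ray '' Ioc 0 1)) :=
    hray.subset_closure (subset_insert _ _) (insert_subset hlim subset_closure)
  have h2 : IsConnected ((fun z : ℂ => ((0, z) : ℝ × ℂ)) '' Metric.closedBall 0 1) := by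
    refine IsConnected.image ⟨⟨0, by simp⟩, (convex_closedBall (0 : ℂ) 1).isPreconnected⟩ _ ?_
    fun_prop
  have hne : (insert ((0, 1) : ℝ × ℂ) (ray '' Ioc 0 1) ∩
      (fun z : ℂ => ((0, z) : ℝ × ℂ)) '' Metric.closedBall 0 1).Nonempty :=
    ⟨(0, 1), mem_insert _ _, 1, by simp, rfl⟩
  have h3 := IsConnected.union hne h1 h2
  convert h3 using 1
  apply Subset.antisymm
  · intro p hp
    rcases hp.1.eq_or_lt with h | h
    · right
      exact ⟨p.2, by simpa using hp.2.2.1, Prod.ext h rfl⟩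
    · left; right
      exact ⟨p.1, ⟨h, hp.2.1⟩, Prod.ext rfl (snd_eq hp h).symm⟩
  · rintro p ((rfl | ⟨r, hr, rfl⟩) | ⟨z, hz, rfl⟩)
    · exact ⟨le_rfl, zero_le_one, by simp, by simp [f]⟩
    · exact ray_mem hr.1.le hr.2
    · exact ⟨le_rfl, zero_le_one, by simpa using hz, by simp [f]⟩

/-- There is no path from `1` to `0` in `D`. -/
theorem no_path {a b : ℝ} (hab : a ≤ b) {γ : ℝ → ℝ × ℂ} (hγ : ContinuousOn γ (Icc a b))
    (hD : ∀ s ∈ Icc a b, γ s ∈ D) (ha : (γ a).1 ≠ 0) (hb : (γ b).1 = 0) : False := by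
  -- the first zero of the first coordinate
  set T : Set ℝ := {s ∈ Icc a b | (γ s).1 = 0} with hT
  have hTc : IsCompact T := by
    have h1 : ContinuousOn (fun s => (γ s).1) (Icc a b) := continuous_fst.comp_continuousOn hγ
    exact isCompact_Icc.of_isClosed_subset
      (h1.preimage_isClosed_of_isClosed isClosed_Icc isClosed_singleton) (fun s hs => hs.1)
  have hTne : T.Nonempty := ⟨b, ⟨hab, le_rfl⟩, hb⟩
  obtain ⟨⟨hc1, hc2⟩, hc0⟩ := hTc.sInf_mem hTne
  set c := sInf T with hc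
  have hlow : ∀ s ∈ Icc a b, s < c → 0 < (γ s).1 := by
    intro s hs hsc
    refine lt_of_le_of_ne (hD s hs).1 fun h => ?_
    exact absurd (csInf_le hTc.bddBelow ⟨hs, h.symm⟩) (not_le.2 hsc)
  have hac : a < c := by
    refine lt_of_le_of_ne hc1 fun h => ha ?_
    rw [h]; exact hc0
  -- near `c` the second coordinate is nearly constant
  have hcont : ContinuousWithinAt (fun s => (γ s).2) (Icc a b) c :=
    (continuous_snd.comp_continuousOn hγ) c ⟨hc1, hc2⟩
  obtain ⟨δ, hδ, hδ'⟩ := Metric.continuousWithinAt_iff.1 hcont 1 one_pos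
  -- a point `d < c` near `c`
  set d := max a (c - δ / 2) with hd
  have hdc : d < c := max_lt hac (by linarith)
  have had : a ≤ d := le_max_left _ _
  have hdin : d ∈ Icc a b := ⟨had, hdc.le.trans hc2⟩
  have hr : 0 < (γ d).1 := hlow d hdin hdc
  -- intermediate values
  have himage : ∀ v : ℝ, 0 < v → v ≤ (γ d).1 → ∃ s ∈ Icc a b, d ≤ s ∧ s < c ∧ (γ s).1 = v := by
    intro v hv0 hv1
    have hcd : ContinuousOn (fun s => (γ s).1) (Icc d c) :=
      (continuous_fst.comp_continuousOn hγ).mono (Icc_subset_Icc had hc2)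
    have := intermediate_value_Icc' hdc.le hcd (show v ∈ Icc (γ c).1 (γ d).1 from ⟨by
      rw [hc0]; exact hv0.le, hv1⟩)
    obtain ⟨s, ⟨hs1, hs2⟩, hs⟩ := this
    simp only at hs
    refine ⟨s, ⟨had.trans hs1, hs2.trans hc2⟩, hs1, lt_of_le_of_ne hs2 fun h => ?_, hs⟩
    rw [h, hc0] at hs
    linarith
  obtain ⟨n, hn⟩ := exists_nat_gt (-Real.log (γ d).1 / (2 * Real.pi))
  have pp := Real.pi_pos
  have hn' : -Real.log (γ d).1 < n * (2 * Real.pi) := by
    rwa [div_lt_iff₀ (by positivity)] at hn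
  have hclose : ∀ s ∈ Icc a b, d ≤ s → s < c → dist (γ s).2 (γ c).2 < 1 := by
    intro s hs h1 h2
    refine hδ' hs ?_
    rw [Real.dist_eq, abs_lt]
    have : c - δ / 2 ≤ d := le_max_right _ _
    constructor <;> linarith
  obtain ⟨s, hs, hs1, hs2, hs3⟩ := himage (Real.exp (-(n * (2 * Real.pi)))) (Real.exp_pos _) (by
    rw [← Real.exp_log hr]
    exact Real.exp_le_exp.2 (by linarith))
  obtain ⟨t, ht, ht1, ht2, ht3⟩ := himage (Real.exp (-(n * (2 * Real.pi)) - Real.pi))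
    (Real.exp_pos _) (by
    rw [← Real.exp_log hr]
    exact Real.exp_le_exp.2 (by linarith))
  have e1 : (γ s).2 = 1 := by
    rw [snd_eq (hD s hs) (by rw [hs3]; exact Real.exp_pos _), hs3, Real.log_exp]
    have := Complex.exp_eq_exp_iff_exists_int.2 ⟨-(n : ℤ), by
      show ((-(n * (2 * Real.pi)) : ℝ) : ℂ) * Complex.I = 0 + _
      push_cast; ring⟩
    rw [this, Complex.exp_zero]
  have e2 : (γ t).2 = -1 := by
    rw [snd_eq (hD t ht) (by rw [ht3]; exact Real.exp_pos _), ht3, Real.log_exp]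
    have := Complex.exp_eq_exp_iff_exists_int.2 ⟨-(n : ℤ) - 1, by
      show ((-(n * (2 * Real.pi)) - Real.pi : ℝ) : ℂ) * Complex.I = Real.pi * Complex.I + _
      push_cast; ring⟩
    rw [this, Complex.exp_pi_mul_I]
  have g1 := hclose s hs hs1 hs2
  have g2 := hclose t ht ht1 ht2
  rw [e1] at g1
  rw [e2] at g2
  have g3 := dist_triangle_right (1 : ℂ) (-1) (γ c).2
  have g4 : dist (1 : ℂ) (-1) = 2 := by
    rw [dist_eq_norm]
    norm_num
  rw [g4] at g3
  linarith

/-! ### the ordinal sum -/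

/-- the ordinal sum of countably many copies of `D`, with a point at infinity -/
def Q : Set (ℕ → ℝ × ℂ) := {x | (∀ k, x k ∈ D) ∧ ∀ j k, j < k → x j = 1 ∨ x k = 0}

theorem isClosed_Q : IsClosed Q := by
  have h1 : IsClosed {x : ℕ → ℝ × ℂ | ∀ k, x k ∈ D} := by
    rw [ofPred_forall]
    exact isClosed_iInter fun k => isClosed_D.preimage (continuous_apply k)
  have h2 : IsClosed {x : ℕ → ℝ × ℂ | ∀ j k, j < k → x j = 1 ∨ x k = 0} := by
    simp only [ofPred_forall]
    refine isClosed_iInter fun j => isClosed_iInter fun k => isClosed_iInter fun _ => ?_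
    exact (isClosed_eq (continuous_apply j) continuous_const).union
      (isClosed_eq (continuous_apply k) continuous_const)
  exact h1.inter h2

theorem isCompact_Q : IsCompact Q :=
  (isCompact_univ_pi fun _ => isCompact_D).of_isClosed_subset isClosed_Q
    fun _ hx k _ => hx.1 k

theorem one_mem_Q : (1 : ℕ → ℝ × ℂ) ∈ Q := ⟨fun _ => one_mem_D, fun _ _ _ => Or.inl rfl⟩

theorem mul_mem_Q {x y : ℕ → ℝ × ℂ} (hx : x ∈ Q) (hy : y ∈ Q) : x * y ∈ Q := by
  refine ⟨fun k => mul_mem_D (hx.1 k) (hy.1 k), fun j k hjk => ?_⟩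
  rcases hx.2 j k hjk with h | h
  · rcases hy.2 j k hjk with h' | h'
    · left; rw [Pi.mul_apply, h, h', mul_one]
    · right; rw [Pi.mul_apply, h', mul_zero]
  · right; rw [Pi.mul_apply, h, zero_mul]

theorem mul_eq_one_Q {x y : ℕ → ℝ × ℂ} (hx : x ∈ Q) (hy : y ∈ Q) (h : x * y = 1) : y = 1 :=
  funext fun k => mul_eq_one (hx.1 k) (hy.1 k) (congrFun h k)

/-- the `n`th copy of `D` -/
def emb (n : ℕ) (p : ℝ × ℂ) : ℕ → ℝ × ℂ := fun k => if k < n then 1 else if k = n then p else 0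

theorem continuous_emb (n : ℕ) : Continuous (emb n) := by
  refine continuous_pi fun k => ?_
  unfold emb
  by_cases h1 : k < n
  · simp only [h1, if_true]; exact continuous_const
  · by_cases h2 : k = n
    · simp only [h2, lt_irrefl, if_false, if_true]; exact continuous_id
    · simp only [h1, h2, if_false]; exact continuous_const

theorem emb_mem (n : ℕ) {p : ℝ × ℂ} (hp : p ∈ D) : emb n p ∈ Q := by
  refine ⟨fun k => ?_, fun j k hjk => ?_⟩
  · unfold emb
    split_ifs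
    · exact one_mem_D
    · exact hp
    · exact zero_mem_D
  · unfold emb
    by_cases h1 : j < n
    · left; simp [h1]
    · right
      have h2 : ¬ k < n := by omega
      have h3 : ¬ k = n := by omega
      simp [h2, h3]

theorem isConnected_Q : IsConnected Q := by
  have hn : ∀ n, IsConnected (emb n '' D) := fun n =>
    isConnected_D.image _ (continuous_emb n).continuousOn
  have hU : IsConnected (⋃ n, emb n '' D) := by
    refine IsConnected.iUnion_of_chain hn fun n => ?_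
    refine ⟨emb n 1, ⟨1, one_mem_D, rfl⟩, ⟨0, zero_mem_D, ?_⟩⟩
    funext k
    have hs : Order.succ n = n + 1 := rfl
    rw [hs]
    unfold emb
    rcases lt_trichotomy k n with h | h | h
    · have : k < n + 1 := by omega
      simp [h, this]
    · subst h
      simp
    · have h1 : ¬ k < n + 1 := by omega
      have h2 : ¬ k < n := by omega
      have h3 : ¬ k = n := by omega
      simp [h1, h2, h3]
  refine hU.subset_closure ?_ ?_
  · exact iUnion_subset fun n => by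
      rintro _ ⟨p, hp, rfl⟩
      exact emb_mem n hp
  · intro x hx
    by_cases h : x = 1
    · rw [h]
      have ht : Filter.Tendsto (fun n => emb n 0) Filter.atTop (𝓝 (1 : ℕ → ℝ × ℂ)) := by
        rw [tendsto_pi_nhds]
        intro k
        refine tendsto_const_nhds.congr' ?_
        filter_upwards [Filter.eventually_gt_atTop k] with n hn
        simp [emb, hn]
      exact mem_closure_of_tendsto ht (Filter.Eventually.of_forall fun n =>
        mem_iUnion.2 ⟨n, 0, zero_mem_D, rfl⟩)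
    · apply subset_closure
      classical
      have hex : ∃ n, x n ≠ 1 := by
        by_contra hcon
        push Not at hcon
        exact h (funext hcon)
      refine mem_iUnion.2 ⟨Nat.find hex, x (Nat.find hex), hx.1 _, ?_⟩
      funext k
      unfold emb
      rcases lt_trichotomy k (Nat.find hex) with h1 | h1 | h1
      · have := Nat.find_min hex h1
        push Not at this
        simp only [h1, if_true]
        exact this.symm
      · simp [h1]
      · have h2 : ¬ k < Nat.find hex := by omega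
        have h3 : ¬ k = Nat.find hex := by omega
        simp only [h2, h3, if_false]
        rcases hx.2 _ k h1 with h4 | h4
        · exact absurd h4 (Nat.find_spec hex)
        · exact h4.symm

/-- Paths in `Q` ending at `1` are constant. -/
theorem path_const {a b : ℝ} {γ : ℝ → ℕ → ℝ × ℂ} (hγ : ContinuousOn γ (Icc a b))
    (hQ : ∀ s ∈ Icc a b, γ s ∈ Q) (hb : γ b = 1) : ∀ s ∈ Icc a b, γ s = 1 := by
  intro s hs
  funext k
  by_contra hne
  have h0 : γ s (k + 1) = 0 := by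
    rcases (hQ s hs).2 k (k + 1) (Nat.lt_succ_self k) with h | h
    · exact absurd h hne
    · exact h
  -- the reversed path
  let η : ℝ → ℝ × ℂ := fun t => γ (b + s - t) (k + 1)
  have hmaps : ∀ t ∈ Icc s b, b + s - t ∈ Icc a b := fun t ht =>
    ⟨by linarith [hs.1, ht.2], by linarith [ht.1]⟩
  refine no_path (a := s) (b := b) hs.2 (γ := η) ?_ ?_ ?_ ?_
  · exact (continuous_apply (k + 1)).comp_continuousOn (hγ.comp (by fun_prop) hmaps)
  · exact fun t ht => (hQ _ (hmaps t ht)).1 _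
  · show (γ (b + s - s) (k + 1)).1 ≠ 0
    rw [add_sub_cancel_right, hb]
    simp
  · show (γ (b + s - b) (k + 1)).1 = 0
    rw [add_sub_cancel_left, h0]
    rfl

/-! ### the two continua -/

/-- the product of an arc and `Q` -/
abbrev X : Type := ↥{p : ℝ × (ℕ → ℝ × ℂ) | p.1 ∈ Icc (0 : ℝ) 1 ∧ p.2 ∈ Q}

/-- the product of an arc and `Q` with an arc attached at the point `(1, 1)` -/
abbrev Y : Type := ↥{p : ℝ × (ℕ → ℝ × ℂ) | p.1 ∈ Icc (0 : ℝ) 2 ∧ p.2 ∈ Q ∧ (p.1 ≤ 1 ∨ p.2 = 1)}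

instance : CompactSpace X := by
  refine isCompact_iff_compactSpace.1 ?_
  exact isCompact_Icc.prod isCompact_Q

instance : ConnectedSpace X := by
  refine isConnected_iff_connectedSpace.1 ?_
  exact (isConnected_Icc zero_le_one).prod isConnected_Q

instance : CompactSpace Y := by
  refine isCompact_iff_compactSpace.1 ?_
  refine (isCompact_Icc.prod isCompact_Q).of_isClosed_subset ?_ (fun p hp => ⟨hp.1, hp.2.1⟩)
  have h1 : IsClosed {p : ℝ × (ℕ → ℝ × ℂ) | p.1 ∈ Icc (0 : ℝ) 2} :=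
    isClosed_Icc.preimage continuous_fst
  have h2 : IsClosed {p : ℝ × (ℕ → ℝ × ℂ) | p.2 ∈ Q} := isClosed_Q.preimage continuous_snd
  have h3 : IsClosed {p : ℝ × (ℕ → ℝ × ℂ) | p.1 ≤ 1} := isClosed_le continuous_fst continuous_const
  have h4 : IsClosed {p : ℝ × (ℕ → ℝ × ℂ) | p.2 = 1} := isClosed_eq continuous_snd continuous_const
  exact h1.inter (h2.inter (h3.union h4))

instance : ConnectedSpace Y := by
  refine isConnected_iff_connectedSpace.1 ?_
  have h1 : IsConnected (Icc (0 : ℝ) 1 ×ˢ Q) := (isConnected_Icc zero_le_one).prod isConnected_Q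
  have h2 : IsConnected (Icc (0 : ℝ) 2 ×ˢ {(1 : ℕ → ℝ × ℂ)}) :=
    (isConnected_Icc zero_le_two).prod isConnected_singleton
  have hne : ((Icc (0 : ℝ) 1 ×ˢ Q) ∩ (Icc (0 : ℝ) 2 ×ˢ {(1 : ℕ → ℝ × ℂ)})).Nonempty :=
    ⟨(0, 1), ⟨⟨le_rfl, zero_le_one⟩, one_mem_Q⟩, ⟨⟨le_rfl, zero_le_two⟩, rfl⟩⟩
  have h3 := IsConnected.union hne h1 h2
  convert h3 using 1
  apply Subset.antisymm
  · rintro p ⟨⟨ha, hb⟩, hc, hd | hd⟩
    · exact Or.inl ⟨⟨ha, hd⟩, hc⟩
    · exact Or.inr ⟨⟨ha, hb⟩, hd⟩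
  · rintro p (⟨⟨ha, hb⟩, hc⟩ | ⟨⟨ha, hb⟩, hc⟩)
    · exact ⟨⟨ha, hb.trans one_le_two⟩, hc, Or.inl hb⟩
    · have hc' : p.2 = 1 := hc
      exact ⟨⟨ha, hb⟩, by rw [hc']; exact one_mem_Q, Or.inr hc'⟩

/-- the point of `X` -/
noncomputable def x0 : X := ⟨(1 / 2, 1), ⟨by norm_num, by norm_num⟩, one_mem_Q⟩

/-- the point of `Y` -/
noncomputable def y0 : Y := ⟨(1 / 2, 1), ⟨by norm_num, by norm_num⟩, one_mem_Q, Or.inr rfl⟩

/-- The common neighbourhood. -/
noncomputable def loc : {p : X | (p : ℝ × (ℕ → ℝ × ℂ)).1 < 1} ≃ₜ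
    {p : Y | (p : ℝ × (ℕ → ℝ × ℂ)).1 < 1} where
  toFun p := ⟨⟨p.1.1, ⟨p.1.2.1.1, p.1.2.1.2.trans one_le_two⟩, p.1.2.2, Or.inl p.1.2.1.2⟩, p.2⟩
  invFun p := ⟨⟨p.1.1, ⟨p.1.2.1.1, le_of_lt p.2⟩, p.1.2.2.1⟩, p.2⟩
  left_inv p := rfl
  right_inv p := rfl
  continuous_toFun := by fun_prop
  continuous_invFun := by fun_prop

/-- the motion in `X` -/
noncomputable def F (z : X × ↥Q) : X :=
  ⟨((z.1 : ℝ × (ℕ → ℝ × ℂ)).1, (z.1 : ℝ × (ℕ → ℝ × ℂ)).2 * z.2), z.1.2.1,
    mul_mem_Q z.1.2.2 z.2.2⟩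

theorem continuous_F : Continuous F := by
  unfold F
  refine Continuous.subtype_mk ?_ _
  fun_prop

theorem F_one (z : X) : F (z, ⟨1, one_mem_Q⟩) = z := by
  refine Subtype.ext ?_
  show ((z : ℝ × (ℕ → ℝ × ℂ)).1, (z : ℝ × (ℕ → ℝ × ℂ)).2 * 1) = (z : ℝ × (ℕ → ℝ × ℂ))
  rw [mul_one]

theorem F_ne (z : X) (c : ↥Q) (hc : c ≠ ⟨1, one_mem_Q⟩) : F (z, c) ≠ x0 := by
  intro h
  apply hc
  have h1 : (z : ℝ × (ℕ → ℝ × ℂ)).2 * c = 1 :=
    congrArg (fun p : X => (p : ℝ × (ℕ → ℝ × ℂ)).2) h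
  exact Subtype.ext (mul_eq_one_Q z.2.2 c.2 h1)

theorem nontrivial_Q : Nontrivial ↥Q := by
  refine ⟨⟨⟨1, one_mem_Q⟩, ⟨emb 0 0, emb_mem 0 zero_mem_D⟩, fun h => ?_⟩⟩
  have := congrFun (congrArg Subtype.val h) 0
  simp [emb] at this

/-- In `Y` nothing moves off `y0`. -/
theorem hits {C : Type*} [MetricSpace C] [ConnectedSpace C] [Nontrivial C] (a : C)
    (G : Y × C → Y) (hG : Continuous G) (hGa : ∀ z, G (z, a) = z) :
    ∃ (z : Y) (c : C), c ≠ a ∧ G (z, c) = y0 := by
  -- the arc through `y0`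
  have hmem : ∀ t ∈ Icc (0 : ℝ) 2, ((t, 1) : ℝ × (ℕ → ℝ × ℂ)) ∈
      {p : ℝ × (ℕ → ℝ × ℂ) | p.1 ∈ Icc (0 : ℝ) 2 ∧ p.2 ∈ Q ∧ (p.1 ≤ 1 ∨ p.2 = 1)} :=
    fun t ht => ⟨ht, one_mem_Q, Or.inr rfl⟩
  let L : ↥(Icc (0 : ℝ) 2) → Y := fun t => ⟨(t, 1), hmem t t.2⟩
  have hL : Continuous L := by
    refine Continuous.subtype_mk ?_ _
    fun_prop
  -- the first coordinate moves little for `c` near `a`
  let ρ : C × ↥(Icc (0 : ℝ) 2) → ℝ := fun q =>
    |((G (L q.2, q.1) : Y) : ℝ × (ℕ → ℝ × ℂ)).1 - q.2|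
  have hρ : Continuous ρ := by
    have h1 : Continuous fun q : C × ↥(Icc (0 : ℝ) 2) => (G (L q.2, q.1) : Y) :=
      hG.comp ((hL.comp continuous_snd).prodMk continuous_fst)
    have h2 : Continuous fun q : C × ↥(Icc (0 : ℝ) 2) =>
        ((G (L q.2, q.1) : Y) : ℝ × (ℕ → ℝ × ℂ)).1 :=
      continuous_fst.comp (continuous_subtype_val.comp h1)
    exact (h2.sub (continuous_subtype_val.comp continuous_snd)).abs
  have hopen : IsOpen {q : C × ↥(Icc (0 : ℝ) 2) | ρ q < 1 / 4} := isOpen_lt hρ continuous_const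
  have htube : ∀ᶠ c in 𝓝 a, ∀ t : ↥(Icc (0 : ℝ) 2), ρ (c, t) < 1 / 4 := by
    have hsub : ({a} : Set C) ×ˢ (univ : Set ↥(Icc (0 : ℝ) 2)) ⊆ {q | ρ q < 1 / 4} := by
      rintro ⟨c, t⟩ ⟨hc, -⟩
      have hc' : c = a := hc
      show |((G (L t, c) : Y) : ℝ × (ℕ → ℝ × ℂ)).1 - t| < 1 / 4
      rw [hc', hGa]
      show |(t : ℝ) - t| < 1 / 4
      rw [sub_self, abs_zero]
      norm_num
    obtain ⟨u, v, hu, -, hau, hv, huv⟩ := generalized_tube_lemma isCompact_singleton
      isCompact_univ hopen hsub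
    filter_upwards [hu.mem_nhds (hau rfl)] with c hc t
    exact huv ⟨hc, hv trivial⟩
  -- there is `c ≠ a` with this property
  have hne : (𝓝[≠] a).NeBot := inferInstance
  obtain ⟨c, hc, hca⟩ := ((htube.filter_mono nhdsWithin_le_nhds).and
    (self_mem_nhdsWithin : {a}ᶜ ∈ 𝓝[≠] a)).exists
  -- the moved arc
  let γ : ℝ → ℝ × (ℕ → ℝ × ℂ) := fun t =>
    ((G (L (projIcc 0 2 zero_le_two t), c) : Y) : ℝ × (ℕ → ℝ × ℂ))
  have hγ : Continuous γ := by
    refine continuous_subtype_val.comp (hG.comp ?_)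
    exact (hL.comp continuous_projIcc).prodMk continuous_const
  have hclose : ∀ t ∈ Icc (0 : ℝ) 2, |(γ t).1 - t| < 1 / 4 := by
    intro t ht
    have := hc (projIcc 0 2 zero_le_two t)
    have h2 : ((projIcc 0 2 zero_le_two t : ↥(Icc (0 : ℝ) 2)) : ℝ) = t := by
      rw [projIcc_of_mem zero_le_two ht]
    simp only [ρ, h2] at this
    exact this
  have hone : ∀ t ∈ Icc (0 : ℝ) 2, (γ t).2 = 1 := by
    refine path_const (γ := fun t => (γ t).2) (continuous_snd.comp hγ).continuousOn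
      (fun t _ => (G (L (projIcc 0 2 zero_le_two t), c)).2.2.1) ?_
    rcases (G (L (projIcc 0 2 zero_le_two 2), c)).2.2.2 with h | h
    · exfalso
      have h1 := hclose 2 ⟨zero_le_two, le_rfl⟩
      rw [abs_lt] at h1
      have h2 : (γ 2).1 ≤ 1 := h
      linarith
    · exact h
  have hivt := intermediate_value_Icc (zero_le_two (α := ℝ))
    (f := fun t => (γ t).1) (continuous_fst.comp hγ).continuousOn
  have h0 := hclose 0 ⟨le_rfl, zero_le_two⟩
  have h2 := hclose 2 ⟨zero_le_two, le_rfl⟩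
  rw [abs_lt] at h0 h2
  obtain ⟨t, ht, hte⟩ := hivt (show (1 / 2 : ℝ) ∈ Icc (γ 0).1 (γ 2).1 from
    ⟨by linarith, by linarith⟩)
  refine ⟨L (projIcc 0 2 zero_le_two t), c, hca, Subtype.ext (Prod.ext hte (hone t ht))⟩

end Pool.Agent.W621.Spiral
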