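import Mathlib

/-!
A metric on the circle whose span is smaller than its semi-span.

Let `Z` be a compact connected set of pairs `(x, y)` of points of the circle such that `x` runs
through the whole circle, `y` stays away from `-1`, and `x / y` has positive imaginary part; let
`K = Z ∪ Zᵀ`. The metric is `min (max (1/2) (1 - M dist(p, K))) (M ρ)`: its set of pairs at distance
one is `K`, and pairs at distance close to one are close to `Z` or to `Zᵀ`, sets which are far from
each other.
-/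

set_option autoImplicit false

open Set Topology Metric

namespace Pool.Agent.W621.SpanCircle

section general

variable {A : Type*} [MetricSpace A]

/-- the height function of a set of pairs -/
noncomputable def ht (K : Set (A × A)) (M : ℝ) (p : A × A) : ℝ := max (1 / 2) (1 - M * infDist p K)

/-- the new distance -/
noncomputable def D (K : Set (A × A)) (M : ℝ) (x y : A) : ℝ := min (ht K M (x, y)) (M * dist x y)

variable {K : Set (A × A)} {M : ℝ}

theorem ht_ge (p : A × A) : 1 / 2 ≤ ht K M p := le_max_left _ _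

theorem ht_le (hM : 0 ≤ M) (p : A × A) : ht K M p ≤ 1 := by
  have : 0 ≤ M * infDist p K := mul_nonneg hM infDist_nonneg
  exact max_le (by norm_num) (by linarith)

theorem ht_lip (hM : 0 ≤ M) (p p' : A × A) : ht K M p ≤ ht K M p' + M * dist p' p := by
  unfold ht
  have h1 : infDist p' K ≤ infDist p K + dist p' p := infDist_le_infDist_add_dist
  have h2 := mul_le_mul_of_nonneg_left h1 hM
  have h3 : 0 ≤ M * dist p' p := mul_nonneg hM dist_nonneg
  apply max_le
  · have := le_max_left (1 / 2) (1 - M * infDist p' K)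
    linarith
  · have := le_max_right (1 / 2) (1 - M * infDist p' K)
    linarith

theorem D_lip (hM : 0 ≤ M) (x y z : A) : D K M x z ≤ D K M y z + M * dist x y := by
  unfold D
  have h1 : ht K M (x, z) ≤ ht K M (y, z) + M * dist x y := by
    have := ht_lip (K := K) hM (x, z) (y, z)
    rwa [Prod.dist_eq, dist_self, max_eq_left dist_nonneg, dist_comm y x] at this
  have h2 : M * dist x z ≤ M * dist y z + M * dist x y := by
    rw [← mul_add]
    refine mul_le_mul_of_nonneg_left ?_ hM
    linarith [dist_triangle x y z]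
  rcases le_total (ht K M (y, z)) (M * dist y z) with h | h
  · rw [min_eq_left h]
    exact (min_le_left _ _).trans h1
  · rw [min_eq_right h]
    exact (min_le_right _ _).trans h2

theorem isometry_swap : Isometry (Prod.swap : A × A → A × A) := by
  refine Isometry.of_dist_eq fun p q => ?_
  rw [Prod.dist_eq, Prod.dist_eq, max_comm]
  rfl

theorem D_comm (hK : Prod.swap '' K = K) (x y : A) : D K M x y = D K M y x := by
  have h : infDist (x, y) K = infDist (y, x) K := by
    have := infDist_image (t := K) (x := (y, x)) (isometry_swap (A := A))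
    rw [hK] at this
    exact this
  unfold D ht
  rw [h, dist_comm]

theorem D_self (hM : 0 ≤ M) (x : A) : D K M x x = 0 := by
  unfold D
  rw [dist_self, mul_zero]
  exact min_eq_right (le_trans (by norm_num) (ht_ge _))

theorem D_le_one (hM : 0 ≤ M) (x y : A) : D K M x y ≤ 1 := (min_le_left _ _).trans (ht_le hM _)

theorem D_le (x y : A) : D K M x y ≤ M * dist x y := min_le_right _ _

theorem D_triangle (hK : Prod.swap '' K = K) (hM : 0 ≤ M) (x y z : A) :
    D K M x z ≤ D K M x y + D K M y z := by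
  have hnn : ∀ a b : A, 0 ≤ D K M a b := fun a b =>
    le_min (le_trans (by norm_num) (ht_ge _)) (mul_nonneg hM dist_nonneg)
  have hsmall : ∀ a b : A, D K M a b < 1 / 2 → D K M a b = M * dist a b := by
    intro a b h
    unfold D at h ⊢
    rcases min_lt_iff.1 h with h' | h'
    · exact absurd h' (not_lt.2 (ht_ge _))
    · exact min_eq_right (h'.le.trans (ht_ge _))
  by_cases h1 : D K M x y < 1 / 2
  · have := D_lip (K := K) hM x y z
    rw [hsmall x y h1]
    linarith
  · by_cases h2 : D K M y z < 1 / 2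
    · have := D_lip (K := K) hM z y x
      rw [D_comm hK z x, D_comm hK y x] at this
      rw [hsmall y z h2, dist_comm y z]
      linarith
    · have := D_le_one (K := K) hM x z
      linarith

theorem eq_of_D (hM : 0 < M) {x y : A} (h : D K M x y = 0) : x = y := by
  have h1 : 0 < ht K M (x, y) := lt_of_lt_of_le (by norm_num) (ht_ge _)
  unfold D at h
  rcases min_choice (ht K M (x, y)) (M * dist x y) with h2 | h2
  · rw [h2] at h; linarith
  · rw [h2] at h
    rcases mul_eq_zero.1 h with h3 | h3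
    · linarith
    · exact dist_eq_zero.1 h3

end general

/-- a copy of a type without its metric -/
structure Wrap (A : Type) where
  /-- the point -/
  pt : A

theorem Wrap.ext' {A : Type} {x y : Wrap A} (h : x.pt = y.pt) : x = y := by
  cases x; cases y; exact congrArg _ h

/-- the new metric space -/
@[reducible] noncomputable def newMetric {A : Type} [MetricSpace A] (K : Set (A × A)) (M : ℝ)
    (hK : Prod.swap '' K = K) (hM : 0 < M) : MetricSpace (Wrap A) where
  dist x y := D K M x.pt y.pt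
  dist_self x := D_self hM.le x.pt
  dist_comm x y := D_comm hK x.pt y.pt
  dist_triangle x y z := D_triangle hK hM.le x.pt y.pt z.pt
  eq_of_dist_eq_zero h := Wrap.ext' (eq_of_D hM h)

/-- If `Z` is a compact connected set of pairs contained in an open set `O` disjoint from its
transpose, all the pairs of which are pairs of different points, such that the first
projection of `Z` is everything and no uniformly separated connected subset of `O` has equal
projections, then some metric distinguishes span and semi-span. -/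
theorem exists_metric {A : Type} [MetricSpace A] [CompactSpace A] (Z O : Set (A × A))
    (hZ : IsCompact Z) (hZc : IsConnected Z) (hO : IsOpen O) (hZO : Z ⊆ O)
    (hOO : Disjoint O (Prod.swap ⁻¹' O)) (hfst : Prod.fst '' Z = univ)
    (hsep : ∀ T ⊆ O, IsConnected T → Prod.fst '' T = Prod.snd '' T → ∀ c > 0,
      ∃ p ∈ T, dist p.1 p.2 < c) :
    ∃ (X : Type) (_ : MetricSpace X), Nonempty (X ≃ₜ A) ∧
      sSup {ε : ℝ | ∃ Z : Set (X × X), Z ⊆ univ ×ˢ univ ∧ IsConnected Z ∧
          Prod.fst '' Z = Prod.snd '' Z ∧ ∀ p ∈ Z, ε ≤ dist p.1 p.2} <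
      sSup {ε : ℝ | ∃ Z : Set (X × X), Z ⊆ univ ×ˢ univ ∧ IsConnected Z ∧
          Prod.snd '' Z ⊆ Prod.fst '' Z ∧ ∀ p ∈ Z, ε ≤ dist p.1 p.2} := by
  classical
  set K : Set (A × A) := Z ∪ Prod.swap '' Z with hKdef
  have hK : Prod.swap '' K = K := by
    rw [hKdef, image_union, image_image]
    simp [union_comm]
  have hKc : IsCompact K := hZ.union (hZ.image continuous_swap)
  have hKO : K ⊆ O ∪ Prod.swap ⁻¹' O := by
    rintro p (h | ⟨p', h, rfl⟩)
    · exact Or.inl (hZO h)
    · exact Or.inr (by simpa using hZO h)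
  have hOop : IsOpen (O ∪ Prod.swap ⁻¹' O) := hO.union (hO.preimage continuous_swap)
  obtain ⟨η, hη, hthick⟩ := hKc.exists_thickening_subset_open hOop hKO
  -- distances on `K` are bounded below
  have hne : ∀ p ∈ Z, p.1 ≠ p.2 := by
    intro p hp he
    refine disjoint_left.1 hOO (hZO hp) ?_
    have : Prod.swap p = p := Prod.ext he.symm he
    simpa [this] using hZO hp
  obtain ⟨p0, hp0, hmin⟩ := hZ.exists_isMinOn hZc.nonempty
    (f := fun p => dist p.1 p.2) (by fun_prop)
  have hc0 : 0 < dist p0.1 p0.2 := dist_pos.2 (hne p0 hp0)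
  set c := dist p0.1 p0.2 with hc
  have hmin' : ∀ p ∈ Z, c ≤ dist p.1 p.2 := fun p hp => hmin hp
  set M : ℝ := c⁻¹ with hMdef
  have hM : 0 < M := inv_pos.2 hc0
  have hMZ : ∀ p ∈ Z, 1 ≤ M * dist p.1 p.2 := by
    intro p hp
    have := mul_le_mul_of_nonneg_left (hmin' p hp) hM.le
    rwa [hMdef, inv_mul_cancel₀ hc0.ne'] at this
  let mX : MetricSpace (Wrap A) := newMetric K M hK hM
  have hdist : ∀ x y : Wrap A, dist x y = D K M x.pt y.pt := fun x y => rfl
  -- the identity is a homeomorphism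
  let i : A ≃ Wrap A := ⟨Wrap.mk, Wrap.pt, fun _ => rfl, fun _ => rfl⟩
  have hi : Continuous i := by
    refine (LipschitzWith.of_dist_le_mul (K := M.toNNReal) fun x y => ?_).continuous
    rw [Real.coe_toNNReal _ hM.le]
    exact D_le x y
  let e : A ≃ₜ Wrap A := hi.homeoOfEquivCompactToT2
  have he : ∀ x : A, e x = ⟨x⟩ := fun x => rfl
  have hes : ∀ x : Wrap A, e.symm x = x.pt := fun x => rfl
  refine ⟨Wrap A, mX, ⟨e.symm⟩, ?_⟩
  set s : ℝ := max (1 - M * (η / 2)) (1 / 2) with hs
  have hs1 : s < 1 := max_lt (by have := mul_pos hM (half_pos hη); linarith) (by norm_num)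
  have bdd : ∀ P : Set (Wrap A × Wrap A) → Prop, BddAbove {ε : ℝ | ∃ Z : Set (Wrap A × Wrap A), Z ⊆ univ ×ˢ univ ∧
      IsConnected Z ∧ P Z ∧ ∀ p ∈ Z, ε ≤ dist p.1 p.2} := by
    intro P
    refine ⟨1, ?_⟩
    rintro ε ⟨T, -, hTc, -, hT⟩
    obtain ⟨p, hp⟩ := hTc.nonempty
    exact (hT p hp).trans (D_le_one hM.le _ _)
  -- the semi-span is at least one
  have h1 : 1 ≤ sSup {ε : ℝ | ∃ Z : Set (Wrap A × Wrap A), Z ⊆ univ ×ˢ univ ∧ IsConnected Z ∧
      Prod.snd '' Z ⊆ Prod.fst '' Z ∧ ∀ p ∈ Z, ε ≤ dist p.1 p.2} := by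
    refine le_csSup (bdd _) ⟨(Prod.map e e) '' Z, by simp, hZc.image _
      (e.continuous.prodMap e.continuous).continuousOn, ?_, ?_⟩
    · have : Prod.fst '' (Prod.map e e '' Z) = univ := by
        rw [image_image]
        apply eq_univ_of_forall
        intro x
        have hx : x.pt ∈ Prod.fst '' Z := by rw [hfst]; trivial
        obtain ⟨p, hp, hpx⟩ := hx
        exact ⟨p, hp, Wrap.ext' hpx⟩
      rw [this]
      exact subset_univ _
    · rintro _ ⟨p, hp, rfl⟩
      show 1 ≤ D K M p.1 p.2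
      refine le_min ?_ (hMZ p hp)
      have : infDist p K = 0 := infDist_zero_of_mem (Or.inl hp)
      refine le_trans (le_of_eq ?_) (le_max_right _ _)
      rw [Prod.mk.eta, this]
      ring
  -- the span is at most `s`
  have h2 : sSup {ε : ℝ | ∃ Z : Set (Wrap A × Wrap A), Z ⊆ univ ×ˢ univ ∧ IsConnected Z ∧
      Prod.fst '' Z = Prod.snd '' Z ∧ ∀ p ∈ Z, ε ≤ dist p.1 p.2} ≤ s := by
    refine csSup_le ⟨0, {(⟨p0.1⟩, ⟨p0.1⟩)}, by simp, isConnected_singleton, by simp, by
      intro p _; exact dist_nonneg⟩ ?_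
    rintro ε ⟨T', -, hTc', hT', hTε⟩
    by_contra hlt
    push Not at hlt
    set T : Set (A × A) := Prod.map e.symm e.symm '' T' with hT
    have hTc : IsConnected T := hTc'.image _ (e.symm.continuous.prodMap
      e.symm.continuous).continuousOn
    have hTmem : ∀ p ∈ T, ε ≤ D K M p.1 p.2 := by
      rintro _ ⟨p, hp, rfl⟩
      exact hTε p hp
    have hTfs : Prod.fst '' T = Prod.snd '' T := by
      have h3 : Prod.fst '' T = e.symm '' (Prod.fst '' T') := by
        rw [hT, image_image, image_image]; rfl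
      have h4 : Prod.snd '' T = e.symm '' (Prod.snd '' T') := by
        rw [hT, image_image, image_image]; rfl
      rw [h3, h4, hT']
    have hTO : T ⊆ O ∪ Prod.swap ⁻¹' O := by
      intro p hp
      apply hthick
      rw [mem_thickening_iff_infDist_lt (hZc.nonempty.mono subset_union_left)]
      have h3 : s < ht K M p := lt_of_lt_of_le hlt ((hTmem p hp).trans (min_le_left _ _))
      have h4 : 1 / 2 < ht K M p := lt_of_le_of_lt (le_max_right _ _) h3
      have h5 : 1 - M * (η / 2) < ht K M p := lt_of_le_of_lt (le_max_left _ _) h3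
      have h6 : ht K M p = 1 - M * infDist p K := by
        unfold ht at h4 ⊢
        rcases lt_max_iff.1 h4 with h | h
        · exact absurd h (lt_irrefl _)
        · exact max_eq_right h.le
      rw [h6] at h5
      have h7 : M * infDist p K < M * (η / 2) := by linarith
      have := lt_of_mul_lt_mul_left h7 hM.le
      linarith
    have hfar : ∀ p ∈ T, (2 * M)⁻¹ ≤ dist p.1 p.2 := by
      intro p hp
      have h3 : 1 / 2 < M * dist p.1 p.2 :=
        lt_of_lt_of_le (lt_of_le_of_lt (le_max_right _ _) hlt) ((hTmem p hp).trans (D_le _ _))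
      rw [mul_inv, inv_mul_le_iff₀ two_pos, inv_le_iff_one_le_mul₀ hM]
      linarith
    have hpos : 0 < (2 * M)⁻¹ := by positivity
    have hcase := hTc.isPreconnected.subset_or_subset hO (hO.preimage continuous_swap) hOO hTO
    rcases hcase with h3 | h3
    · obtain ⟨p, hp, hlt⟩ := hsep T h3 hTc hTfs _ hpos
      exact absurd hlt (not_lt.2 (hfar p hp))
    · obtain ⟨p, hp, hlt⟩ := hsep (Prod.swap '' T) (by
          rintro _ ⟨p, hp, rfl⟩; exact h3 hp) (hTc.image _ continuous_swap.continuousOn) (by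
          have h5 : Prod.fst '' (Prod.swap '' T) = Prod.snd '' T := by rw [image_image]; rfl
          have h6 : Prod.snd '' (Prod.swap '' T) = Prod.fst '' T := by rw [image_image]; rfl
          rw [h5, h6, hTfs]) _ hpos
      obtain ⟨p', hp', rfl⟩ := hp
      refine absurd hlt (not_lt.2 ?_)
      have := hfar p' hp'
      rwa [dist_comm] at this
  exact lt_of_le_of_lt h2 (lt_of_lt_of_le hs1 h1)

/-! ### the pairs -/

open Complex (slitPlane arg)

/-- the point of the circle at angle `θ` -/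
noncomputable def pt (θ : ℝ) : sphere (0 : ℂ) 1 :=
  ⟨Complex.exp (θ * Complex.I), by simp [Complex.norm_exp_ofReal_mul_I]⟩

theorem continuous_pt : Continuous pt := by
  unfold pt
  refine Continuous.subtype_mk ?_ _
  fun_prop

theorem arg_pt {θ : ℝ} (h1 : -Real.pi < θ) (h2 : θ ≤ Real.pi) : arg (pt θ : ℂ) = θ := by
  show arg (Complex.exp (θ * Complex.I)) = θ
  rw [Complex.exp_mul_I]
  exact Complex.arg_cos_add_sin_mul_I ⟨h1, h2⟩

theorem pt_arg (x : sphere (0 : ℂ) 1) : pt (arg (x : ℂ)) = x := by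
  have hx : ‖(x : ℂ)‖ = 1 := by simp
  refine Subtype.ext ?_
  have := Complex.norm_mul_exp_arg_mul_I (x : ℂ)
  rw [hx] at this
  simpa [pt] using this

theorem dist_pt (a b : ℝ) : dist (pt a) (pt b) ≤ |a - b| := by
  rw [Subtype.dist_eq, dist_eq_norm]
  have h1 : (pt a : ℂ) - pt b =
      Complex.exp (b * Complex.I) * (Complex.exp (Complex.I * ((a - b : ℝ) : ℂ)) - 1) := by
    unfold pt
    have h2 : (b : ℂ) * Complex.I + Complex.I * ((a - b : ℝ) : ℂ) = a * Complex.I := by
      push_cast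
      ring
    rw [mul_sub, ← Complex.exp_add, h2, mul_one]
  rw [h1, norm_mul, Complex.norm_exp_ofReal_mul_I, one_mul]
  exact Real.norm_exp_I_mul_ofReal_sub_one_le

theorem ne_zero (x : sphere (0 : ℂ) 1) : (x : ℂ) ≠ 0 := by
  have hx : ‖(x : ℂ)‖ = 1 := by simp
  intro h
  rw [h] at hx
  simp at hx

/-- the open set of pairs -/
def O : Set (sphere (0 : ℂ) 1 × sphere (0 : ℂ) 1) :=
  {p | 0 < ((p.1 : ℂ) * (starRingEnd ℂ) p.2).im ∧ (p.2 : ℂ) ∈ slitPlane}

theorem isOpen_O : IsOpen O := by
  have h1 : IsOpen {p : sphere (0 : ℂ) 1 × sphere (0 : ℂ) 1 |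
      0 < ((p.1 : ℂ) * (starRingEnd ℂ) p.2).im} := by
    refine isOpen_lt continuous_const ?_
    exact Complex.continuous_im.comp ((continuous_subtype_val.comp continuous_fst).mul
      (Complex.continuous_conj.comp (continuous_subtype_val.comp continuous_snd)))
  have h2 : IsOpen {p : sphere (0 : ℂ) 1 × sphere (0 : ℂ) 1 | (p.2 : ℂ) ∈ slitPlane} :=
    Complex.isOpen_slitPlane.preimage (continuous_subtype_val.comp continuous_snd)
  exact h1.inter h2

theorem disjoint_O : Disjoint O (Prod.swap ⁻¹' O) := by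
  rw [disjoint_left]
  rintro p ⟨h1, -⟩ ⟨h2, -⟩
  simp only [Prod.fst_swap, Prod.snd_swap, Complex.mul_im, Complex.conj_re, Complex.conj_im]
    at h1 h2
  linarith

/-- the parametrisation of `Z` -/
noncomputable def γ (t : ℝ) : sphere (0 : ℂ) 1 × sphere (0 : ℂ) 1 :=
  (pt (2 * Real.pi * (-1 / 5 + t)), pt (2 * Real.pi * (-2 / 5 + 4 / 5 * t)))

theorem continuous_γ : Continuous γ := by
  unfold γ
  exact (continuous_pt.comp (by fun_prop)).prodMk (continuous_pt.comp (by fun_prop))

theorem γ_mem {t : ℝ} (h0 : 0 ≤ t) (h1 : t ≤ 1) : γ t ∈ O := by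
  have pp := Real.pi_pos
  constructor
  · have h2 : ((γ t).1 : ℂ) * (starRingEnd ℂ) (γ t).2 =
        Complex.exp ((2 * Real.pi * (1 / 5 + t / 5) : ℝ) * Complex.I) := by
      unfold γ pt
      simp only
      rw [← Complex.exp_conj, ← Complex.exp_add]
      congr 1
      simp only [map_mul, Complex.conj_ofReal, Complex.conj_I]
      push_cast
      ring
    rw [h2, Complex.exp_ofReal_mul_I_im]
    refine Real.sin_pos_of_pos_of_lt_pi ?_ ?_
    · positivity
    · nlinarith
  · rw [Complex.mem_slitPlane_iff_arg]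
    refine ⟨?_, ne_zero _⟩
    unfold γ
    simp only
    rw [arg_pt (by nlinarith) (by nlinarith)]
    intro h
    nlinarith

theorem γ_surj (x : sphere (0 : ℂ) 1) : ∃ t ∈ Icc (0 : ℝ) 1, (γ t).1 = x := by
  have pp := Real.pi_pos
  have h1 := Complex.neg_pi_lt_arg (x : ℂ)
  have h2 := Complex.arg_le_pi (x : ℂ)
  set φ := arg (x : ℂ) with hφ
  have hval : ∀ t : ℝ, 2 * Real.pi * (-1 / 5 + t) = φ → (γ t).1 = x := by
    intro t ht
    show pt (2 * Real.pi * (-1 / 5 + t)) = x
    rw [ht, hφ, pt_arg]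
  have hq : 2 * Real.pi * (φ / (2 * Real.pi)) = φ := by field_simp
  have hq1 : -(1 / 2) < φ / (2 * Real.pi) := by
    rw [lt_div_iff₀ (by positivity)]; nlinarith
  have hq2 : φ / (2 * Real.pi) ≤ 1 / 2 := by
    rw [div_le_iff₀ (by positivity)]; nlinarith
  by_cases hc : 0 ≤ 1 / 5 + φ / (2 * Real.pi)
  · refine ⟨1 / 5 + φ / (2 * Real.pi), ⟨hc, by linarith⟩, hval _ ?_⟩
    have : 2 * Real.pi * (-1 / 5 + (1 / 5 + φ / (2 * Real.pi))) =
      2 * Real.pi * (φ / (2 * Real.pi)) := by ring
    rw [this, hq]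
  · refine ⟨1 / 5 + φ / (2 * Real.pi) + 1, ⟨by linarith, by linarith⟩, ?_⟩
    have h3 : 2 * Real.pi * (-1 / 5 + (1 / 5 + φ / (2 * Real.pi) + 1)) = φ + 2 * Real.pi := by
      have : 2 * Real.pi * (-1 / 5 + (1 / 5 + φ / (2 * Real.pi) + 1)) =
        2 * Real.pi * (φ / (2 * Real.pi)) + 2 * Real.pi := by ring
      rw [this, hq]
    show pt (2 * Real.pi * (-1 / 5 + (1 / 5 + φ / (2 * Real.pi) + 1))) = x
    rw [h3]
    have h4 : pt (φ + 2 * Real.pi) = pt φ := by
      refine Subtype.ext ?_
      unfold pt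
      simp only
      push_cast
      rw [add_mul, Complex.exp_add, Complex.exp_two_pi_mul_I, mul_one]
    rw [h4, hφ, pt_arg]

theorem sep (T : Set (sphere (0 : ℂ) 1 × sphere (0 : ℂ) 1)) (hTO : T ⊆ O) (hT : IsConnected T)
    (hfs : Prod.fst '' T = Prod.snd '' T) (c : ℝ) (hc : 0 < c) : ∃ p ∈ T, dist p.1 p.2 < c := by
  by_contra hcon
  push Not at hcon
  have hsnd : ∀ p ∈ T, (p.2 : ℂ) ∈ slitPlane := fun p hp => (hTO hp).2
  have hfst : ∀ p ∈ T, (p.1 : ℂ) ∈ slitPlane := by
    intro p hp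
    have : p.1 ∈ Prod.snd '' T := by rw [← hfs]; exact ⟨p, hp, rfl⟩
    obtain ⟨p', hp', he⟩ := this
    rw [← he]
    exact hsnd p' hp'
  set F : sphere (0 : ℂ) 1 × sphere (0 : ℂ) 1 → ℝ := fun p => arg (p.1 : ℂ) - arg (p.2 : ℂ) with hF
  have hFc : ContinuousOn F T := by
    intro p hp
    refine ContinuousAt.continuousWithinAt (ContinuousAt.sub ?_ ?_)
    · exact ContinuousAt.comp (f := fun p : sphere (0 : ℂ) 1 × sphere (0 : ℂ) 1 => (p.1 : ℂ))
        (Complex.continuousAt_arg (hfst p hp))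
        (continuous_subtype_val.comp continuous_fst).continuousAt
    · exact ContinuousAt.comp (f := fun p : sphere (0 : ℂ) 1 × sphere (0 : ℂ) 1 => (p.2 : ℂ))
        (Complex.continuousAt_arg (hsnd p hp))
        (continuous_subtype_val.comp continuous_snd).continuousAt
  have habs : ∀ p ∈ T, c ≤ |F p| := by
    intro p hp
    have := dist_pt (arg (p.1 : ℂ)) (arg (p.2 : ℂ))
    rw [pt_arg, pt_arg] at this
    exact (hcon p hp).trans this
  have him : IsPreconnected (F '' T) := hT.isPreconnected.image _ hFc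
  have hcase : (∀ p ∈ T, c ≤ F p) ∨ (∀ p ∈ T, F p ≤ -c) := by
    by_contra h
    push Not at h
    obtain ⟨⟨a, ha, hac⟩, ⟨b, hb, hbc⟩⟩ := h
    have ha' : F a ≤ -c := by
      rcases le_abs.1 (habs a ha) with h | h <;> linarith
    have hb' : c ≤ F b := by
      rcases le_abs.1 (habs b hb) with h | h <;> linarith
    obtain ⟨p, hp, hp0⟩ := him.ordConnected.out ⟨a, ha, rfl⟩ ⟨b, hb, rfl⟩
      (show (0 : ℝ) ∈ Icc (F a) (F b) from ⟨by linarith, by linarith⟩)
    have := habs p hp
    rw [hp0, abs_zero] at this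
    linarith
  obtain ⟨q, hq⟩ := hT.nonempty
  have hbd : ∀ U : Set (sphere (0 : ℂ) 1),
      BddAbove ((fun x : sphere (0 : ℂ) 1 => arg (x : ℂ)) '' U) := by
    intro U
    refine ⟨Real.pi, ?_⟩
    rintro _ ⟨x, -, rfl⟩
    exact Complex.arg_le_pi _
  rcases hcase with h | h
  · have hne : ((fun x : sphere (0 : ℂ) 1 => arg (x : ℂ)) '' (Prod.snd '' T)).Nonempty :=
      ⟨_, _, ⟨q, hq, rfl⟩, rfl⟩
    obtain ⟨_, ⟨_, ⟨p, hp, rfl⟩, rfl⟩, hlt⟩ := exists_lt_of_lt_csSup hne
      (show sSup _ - c < sSup _ by linarith)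
    have h1 : arg (p.1 : ℂ) ≤
        sSup ((fun x : sphere (0 : ℂ) 1 => arg (x : ℂ)) '' (Prod.snd '' T)) := by
      refine le_csSup (hbd _) ⟨p.1, ?_, rfl⟩
      rw [← hfs]
      exact ⟨p, hp, rfl⟩
    have h2 := h p hp
    simp only [hF] at h2
    simp only at hlt
    linarith
  · have hne : ((fun x : sphere (0 : ℂ) 1 => arg (x : ℂ)) '' (Prod.fst '' T)).Nonempty :=
      ⟨_, _, ⟨q, hq, rfl⟩, rfl⟩
    obtain ⟨_, ⟨_, ⟨p, hp, rfl⟩, rfl⟩, hlt⟩ := exists_lt_of_lt_csSup hne
      (show sSup _ - c < sSup _ by linarith)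
    have h1 : arg (p.2 : ℂ) ≤
        sSup ((fun x : sphere (0 : ℂ) 1 => arg (x : ℂ)) '' (Prod.fst '' T)) := by
      refine le_csSup (hbd _) ⟨p.2, ?_, rfl⟩
      rw [hfs]
      exact ⟨p, hp, rfl⟩
    have h2 := h p hp
    simp only [hF] at h2
    simp only at hlt
    linarith

theorem main : ∃ (X : Type) (_ : MetricSpace X), Nonempty (X ≃ₜ sphere (0 : ℂ) 1) ∧
      sSup {ε : ℝ | ∃ Z : Set (X × X), Z ⊆ univ ×ˢ univ ∧ IsConnected Z ∧
          Prod.fst '' Z = Prod.snd '' Z ∧ ∀ p ∈ Z, ε ≤ dist p.1 p.2} <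
      sSup {ε : ℝ | ∃ Z : Set (X × X), Z ⊆ univ ×ˢ univ ∧ IsConnected Z ∧
          Prod.snd '' Z ⊆ Prod.fst '' Z ∧ ∀ p ∈ Z, ε ≤ dist p.1 p.2} := by
  refine exists_metric (γ '' Icc 0 1) O (isCompact_Icc.image continuous_γ)
    ((isConnected_Icc zero_le_one).image _ continuous_γ.continuousOn) isOpen_O ?_ disjoint_O ?_ sep
  · rintro _ ⟨t, ⟨h0, h1⟩, rfl⟩
    exact γ_mem h0 h1
  · apply eq_univ_of_forall
    intro x
    obtain ⟨t, ht, h⟩ := γ_surj x
    exact ⟨γ t, ⟨t, ht, rfl⟩, h⟩

end Pool.Agent.W621.SpanCircle
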