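import Mathlib

/-!
The necklace of two spheres is a non-unicoherent locally connected continuum with a free
involution whose quotient (the wedge of two projective planes) is unicoherent.
-/

set_option autoImplicit false

open Set Topology

namespace Pool.Agent.W621.Necklace

/-! ### logarithms of circle valued maps -/

/-- Two real logarithms of one circle valued map on a preconnected set differ by a constant. -/
theorem diff_const {α : Type*} [TopologicalSpace α] {s : Set α} (hs : IsPreconnected s)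
    {f g : α → ℝ} (hf : ContinuousOn f s) (hg : ContinuousOn g s)
    (h : ∀ x ∈ s, Circle.exp (f x) = Circle.exp (g x)) {x y : α} (hx : x ∈ s) (hy : y ∈ s) :
    f x - g x = f y - g y := by
  have key : ∀ a ∈ s, ∃ n : ℤ, f a - g a = n * (2 * Real.pi) := by
    intro a ha
    obtain ⟨m, hm⟩ := Circle.exp_eq_exp.1 (h a ha)
    exact ⟨m, by linarith⟩
  have hcon : IsPreconnected ((fun a => f a - g a) '' s) := hs.image _ (hf.sub hg)
  have pp := Real.pi_pos
  -- an auxiliary statement: no strict inequality between values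
  have main : ∀ a ∈ s, ∀ b ∈ s, ¬ (f a - g a < f b - g b) := by
    intro a ha b hb hlt
    obtain ⟨m, hm⟩ := key a ha
    obtain ⟨n, hn⟩ := key b hb
    have hmn : (m : ℝ) < n := by
      rw [hm, hn] at hlt
      exact lt_of_mul_lt_mul_right hlt (by positivity)
    have hmn' : (m : ℝ) + 1 ≤ n := by exact_mod_cast hmn
    have hmem : ((m : ℝ) + 1 / 2) * (2 * Real.pi) ∈ (fun a => f a - g a) '' s := by
      refine hcon.ordConnected.out (mem_image_of_mem _ ha) (mem_image_of_mem _ hb) ⟨?_, ?_⟩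
      · simp only [hm]
        nlinarith
      · simp only [hn]
        nlinarith
    obtain ⟨c, hc, hc'⟩ := hmem
    obtain ⟨k, hk⟩ := key c hc
    simp only at hc'
    rw [hk] at hc'
    have h2 : (k : ℝ) = m + 1 / 2 := by
      have : (2 * Real.pi) ≠ 0 := by positivity
      exact mul_right_cancel₀ this hc'
    have h3 : (2 * k : ℤ) = 2 * m + 1 := by
      have : (2 * k : ℝ) = 2 * m + 1 := by rw [h2]; ring
      exact_mod_cast this
    omega
  rcases lt_trichotomy (f x - g x) (f y - g y) with h1 | h1 | h1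
  · exact absurd h1 (main x hx y hy)
  · exact h1
  · exact absurd h1 (main y hy x hx)

/-- A connected normal space all of whose circle valued maps have logarithms is unicoherent. -/
theorem unicoherent_of_log {Y : Type*} [TopologicalSpace Y] [NormalSpace Y] [ConnectedSpace Y]
    (hlog : ∀ g : Y → Circle, Continuous g →
      ∃ θ : Y → ℝ, Continuous θ ∧ ∀ y, Circle.exp (θ y) = g y)
    {A B : Set Y} (hA : IsClosed A) (hB : IsClosed B) (hAc : IsConnected A) (hBc : IsConnected B)
    (hAB : A ∪ B = univ) : IsConnected (A ∩ B) := by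
  classical
  have hne : (A ∩ B).Nonempty := by
    have := isPreconnected_closed_iff.1 (isPreconnected_univ (α := Y)) A B hA hB (by rw [hAB])
      (by simpa using hAc.nonempty) (by simpa using hBc.nonempty)
    simpa using this
  refine ⟨hne, ?_⟩
  rw [isPreconnected_closed_iff]
  intro t t' ht ht' hcov hn hn'
  by_contra hcon
  rw [not_nonempty_iff_eq_empty] at hcon
  obtain ⟨a, ⟨haA, haB⟩, hat⟩ := hn
  obtain ⟨b, ⟨hbA, hbB⟩, hbt⟩ := hn'
  have hP : IsClosed (A ∩ B ∩ t) := (hA.inter hB).inter ht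
  have hQ : IsClosed (A ∩ B ∩ t') := (hA.inter hB).inter ht'
  have hPQ : Disjoint (A ∩ B ∩ t) (A ∩ B ∩ t') := by
    rw [disjoint_left]
    rintro x ⟨hx, hxt⟩ ⟨-, hxt'⟩
    have : x ∈ A ∩ B ∩ (t ∩ t') := ⟨hx, hxt, hxt'⟩
    rw [hcon] at this
    exact this
  obtain ⟨u, hu0, hu1, -⟩ := exists_continuous_zero_one_of_isClosed hP hQ hPQ
  have huc : Continuous u := u.continuous
  set g : Y → Circle := fun x => if x ∈ A then Circle.exp (Real.pi * u x)
    else Circle.exp (-(Real.pi * u x)) with hg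
  have gA : ∀ x ∈ A, g x = Circle.exp (Real.pi * u x) := by
    intro x hx; simp [hg, hx]
  have gB : ∀ x ∈ B, g x = Circle.exp (-(Real.pi * u x)) := by
    intro x hx
    by_cases hxA : x ∈ A
    · rw [gA x hxA]
      have : x ∈ t ∪ t' := hcov ⟨hxA, hx⟩
      rcases this with h | h
      · have : u x = 0 := hu0 ⟨⟨hxA, hx⟩, h⟩
        rw [this]; simp
      · have : u x = 1 := hu1 ⟨⟨hxA, hx⟩, h⟩
        rw [this, mul_one]
        exact Circle.exp_eq_exp.2 ⟨1, by push_cast; ring⟩
    · simp [hg, hxA]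
  have hgc : Continuous g := by
    have : ContinuousOn g (A ∪ B) := by
      apply ContinuousOn.union_of_isClosed _ _ hA hB
      · have : ContinuousOn (fun x => Circle.exp (Real.pi * u x)) A :=
          (Circle.exp.continuous.comp (continuous_const.mul huc)).continuousOn
        exact this.congr gA
      · have : ContinuousOn (fun x => Circle.exp (-(Real.pi * u x))) B :=
          (Circle.exp.continuous.comp (continuous_const.mul huc).neg).continuousOn
        exact this.congr gB
    rw [hAB] at this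
    exact continuousOn_univ.1 this
  obtain ⟨θ, hθ, hθg⟩ := hlog g hgc
  have e1 := diff_const hAc.isPreconnected (f := θ) (g := fun x => Real.pi * u x) hθ.continuousOn
    (continuous_const.mul huc).continuousOn (fun x hx => by rw [hθg, gA x hx]) haA hbA
  have e2 := diff_const hBc.isPreconnected (f := θ) (g := fun x => -(Real.pi * u x))
    hθ.continuousOn (continuous_const.mul huc).neg.continuousOn
    (fun x hx => by rw [hθg, gB x hx]) haB hbB
  have ua : u a = 0 := hu0 ⟨⟨haA, haB⟩, hat⟩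
  have ub : u b = 1 := hu1 ⟨⟨hbA, hbB⟩, hbt⟩
  simp only [ua, ub] at e1 e2
  have pp := Real.pi_pos
  linarith

/-- Circle valued maps of the plane have logarithms. -/
theorem log_plane (g : ℂ → Circle) (hg : Continuous g) :
    ∃ L : ℂ → ℝ, Continuous L ∧ ∀ w, Circle.exp (L w) = g w := by
  obtain ⟨a, ha⟩ := Circle.exp_surjective (g 0)
  obtain ⟨F, ⟨-, hF⟩, -⟩ := Circle.isCoveringMap_exp.existsUnique_continuousMap_lifts
    (⟨g, hg⟩ : C(ℂ, Circle)) 0 a ha
  exact ⟨F, F.continuous, fun w => congrFun hF w⟩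

/-! ### the double cones -/

/-- radial retraction to the unit disc -/
noncomputable def rad (w : ℂ) : ℂ := ((max 1 ‖w‖)⁻¹ : ℝ) • w

theorem continuous_rad : Continuous rad := by
  have h1 : Continuous fun w : ℂ => (max 1 ‖w‖)⁻¹ := by
    refine Continuous.inv₀ (continuous_const.max continuous_norm) ?_
    intro w
    have : (1 : ℝ) ≤ max 1 ‖w‖ := le_max_left _ _
    positivity
  exact h1.smul continuous_id

theorem rad_of_le {w : ℂ} (hw : ‖w‖ ≤ 1) : rad w = w := by
  unfold rad
  rw [max_eq_left hw]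
  simp

theorem norm_rad_le (w : ℂ) : ‖rad w‖ ≤ 1 := by
  unfold rad
  have h1 : (1 : ℝ) ≤ max 1 ‖w‖ := le_max_left _ _
  have h0 : (0 : ℝ) < max 1 ‖w‖ := by linarith
  rw [norm_smul, Real.norm_eq_abs, abs_of_pos (inv_pos.2 h0), inv_mul_le_iff₀ h0]
  simp

/-- the surface of a double cone, a sphere -/
def S (c : ℝ) : Set (ℂ × ℝ) := {p | c * ‖p.1‖ + |p.2| = 1}

theorem isClosed_S (c : ℝ) : IsClosed (S c) :=
  isClosed_eq (by fun_prop) continuous_const

theorem neg_mem_S {c : ℝ} {p : ℂ × ℝ} (hp : p ∈ S c) : -p ∈ S c := by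
  simpa [S] using hp

/-- parametrisation of the upper and lower halves -/
noncomputable def hp (c σ : ℝ) (w : ℂ) : ℂ × ℝ := ((c⁻¹ : ℝ) • rad w, σ * (1 - ‖rad w‖))

theorem continuous_hp (c σ : ℝ) : Continuous (hp c σ) := by
  unfold hp
  exact (continuous_rad.const_smul (c⁻¹ : ℝ)).prodMk (continuous_const.mul
    (continuous_const.sub continuous_rad.norm))

theorem hp_mem {c σ : ℝ} (hc : 0 < c) (hσ : |σ| = 1) (w : ℂ) : hp c σ w ∈ S c := by
  have h1 := norm_rad_le w
  simp only [S, hp, mem_ofPred_eq, norm_smul, Real.norm_eq_abs, abs_mul, hσ, one_mul]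
  rw [abs_of_pos (inv_pos.2 hc), abs_of_nonneg (by linarith)]
  field_simp
  ring

theorem hp_up {c : ℝ} (hc : 0 < c) {p : ℂ × ℝ} (h : p ∈ S c) (h2 : 0 ≤ p.2) :
    hp c 1 (c • p.1) = p := by
  have h' : c * ‖p.1‖ + |p.2| = 1 := h
  rw [abs_of_nonneg h2] at h'
  have hn : ‖c • p.1‖ = c * ‖p.1‖ := by rw [norm_smul, Real.norm_eq_abs, abs_of_pos hc]
  have hle : ‖c • p.1‖ ≤ 1 := by rw [hn]; linarith
  unfold hp
  rw [rad_of_le hle, hn, smul_smul, inv_mul_cancel₀ hc.ne', one_smul]
  ext1
  · rfl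
  · simp only [one_mul]; linarith

theorem hp_down {c : ℝ} (hc : 0 < c) {p : ℂ × ℝ} (h : p ∈ S c) (h2 : p.2 ≤ 0) :
    hp c (-1) (c • p.1) = p := by
  have h' : c * ‖p.1‖ + |p.2| = 1 := h
  rw [abs_of_nonpos h2] at h'
  have hn : ‖c • p.1‖ = c * ‖p.1‖ := by rw [norm_smul, Real.norm_eq_abs, abs_of_pos hc]
  have hle : ‖c • p.1‖ ≤ 1 := by rw [hn]; linarith
  unfold hp
  rw [rad_of_le hle, hn, smul_smul, inv_mul_cancel₀ hc.ne', one_smul]
  ext1
  · rfl
  · simp only; linarith

theorem S_eq {c : ℝ} (hc : 0 < c) : S c = range (hp c 1) ∪ range (hp c (-1)) := by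
  apply Subset.antisymm
  · intro p h
    rcases le_total 0 p.2 with h2 | h2
    · exact Or.inl ⟨_, hp_up hc h h2⟩
    · exact Or.inr ⟨_, hp_down hc h h2⟩
  · rintro _ (⟨w, rfl⟩ | ⟨w, rfl⟩)
    · exact hp_mem hc (by simp) w
    · exact hp_mem hc (by simp) w

theorem isConnected_S {c : ℝ} (hc : 0 < c) : IsConnected (S c) := by
  rw [S_eq hc]
  refine IsConnected.union ⟨hp c 1 1, ⟨1, rfl⟩, ⟨1, ?_⟩⟩
    (isConnected_range (continuous_hp c 1)) (isConnected_range (continuous_hp c (-1)))
  have : rad 1 = 1 := rad_of_le (by simp)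
  simp [hp, this]

/-- An even circle valued map on the sphere has an even logarithm. -/
theorem even_log {c : ℝ} (hc : 0 < c) {G : ℂ × ℝ → Circle} (hG : ContinuousOn G (S c))
    (hev : ∀ p ∈ S c, G (-p) = G p) :
    ∃ θ : ℂ × ℝ → ℝ, ContinuousOn θ (S c) ∧ (∀ p ∈ S c, Circle.exp (θ p) = G p) ∧
      ∀ p ∈ S c, θ (-p) = θ p := by
  obtain ⟨L, hL, hLe⟩ := log_plane (fun w => G (hp c 1 w))
    (hG.comp_continuous (continuous_hp c 1) (hp_mem hc (by simp)))
  obtain ⟨M, hM, hMe⟩ := log_plane (fun w => G (hp c (-1) w))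
    (hG.comp_continuous (continuous_hp c (-1)) (hp_mem hc (by simp)))
  have heq : ∀ w : ℂ, ‖w‖ = 1 → hp c 1 w = hp c (-1) w := by
    intro w hw
    unfold hp
    rw [rad_of_le hw.le, hw]
    simp
  have hsph : IsPreconnected (Metric.sphere (0 : ℂ) 1) := by
    refine (isConnected_sphere ?_ 0 zero_le_one).isPreconnected
    rw [Complex.rank_real_complex]
    exact Cardinal.one_lt_two
  have hdiff : ∀ w : ℂ, ‖w‖ = 1 → L w = M w + (L 1 - M 1) := by
    intro w hw
    have := diff_const hsph hL.continuousOn hM.continuousOn (fun x hx => by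
      rw [hLe, hMe, heq x (by simpa using hx)]) (x := w) (y := 1) (by simpa using hw) (by simp)
    linarith
  have hexp : Circle.exp (L 1 - M 1) = 1 := by
    rw [Circle.exp_sub, hLe, hMe, heq 1 (by simp)]
    simp
  set θ : ℂ × ℝ → ℝ := fun p => if 0 ≤ p.2 then L (c • p.1) else M (c • p.1) + (L 1 - M 1) with hθ
  have θup : ∀ p ∈ S c, 0 ≤ p.2 → θ p = L (c • p.1) := by
    intro p _ h2; simp [hθ, h2]
  have θdown : ∀ p ∈ S c, p.2 ≤ 0 → θ p = M (c • p.1) + (L 1 - M 1) := by
    intro p hpS h2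
    rcases h2.lt_or_eq with h3 | h3
    · simp [hθ, not_le.2 h3]
    · have : ‖c • p.1‖ = 1 := by
        have h' : c * ‖p.1‖ + |p.2| = 1 := hpS
        rw [h3, abs_zero, add_zero] at h'
        rw [norm_smul, Real.norm_eq_abs, abs_of_pos hc, h']
      rw [θup p hpS h3.ge, hdiff _ this]
  have hcont : ContinuousOn θ (S c) := by
    have hSu : S c = (S c ∩ {p | 0 ≤ p.2}) ∪ (S c ∩ {p | p.2 ≤ 0}) := by
      rw [← inter_union_distrib_left]
      refine (inter_eq_left.2 fun p _ => ?_).symm
      exact le_total 0 p.2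
    rw [hSu]
    apply ContinuousOn.union_of_isClosed
    · have : Continuous fun p : ℂ × ℝ => L (c • p.1) := hL.comp (continuous_fst.const_smul c)
      exact this.continuousOn.congr fun p hpm => θup p hpm.1 hpm.2
    · have : Continuous fun p : ℂ × ℝ => M (c • p.1) + (L 1 - M 1) :=
        (hM.comp (continuous_fst.const_smul c)).add continuous_const
      exact this.continuousOn.congr fun p hpm => θdown p hpm.1 hpm.2
    · exact (isClosed_S c).inter (isClosed_le continuous_const continuous_snd)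
    · exact (isClosed_S c).inter (isClosed_le continuous_snd continuous_const)
  have hlog : ∀ p ∈ S c, Circle.exp (θ p) = G p := by
    intro p hpS
    rcases le_total 0 p.2 with h2 | h2
    · rw [θup p hpS h2, hLe, hp_up hc hpS h2]
    · rw [θdown p hpS h2, Circle.exp_add, hMe, hp_down hc hpS h2, hexp, mul_one]
  refine ⟨θ, hcont, hlog, ?_⟩
  intro p hpS
  have hneg : ContinuousOn (fun p => θ (-p)) (S c) :=
    hcont.comp continuous_neg.continuousOn fun p hp => neg_mem_S hp
  have := diff_const (isConnected_S hc).isPreconnected hneg hcont (fun x hx => by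
    rw [hlog _ (neg_mem_S hx), hlog _ hx, hev x hx]) hpS (neg_mem_S hpS)
  rw [neg_neg] at this
  linarith

/-! ### the necklace and its quotient -/

/-- the union of two spheres meeting in the two points `(0, 1)` and `(0, -1)` -/
abbrev X : Type := ↥(S 1 ∪ S 2)

instance : Neg X := ⟨fun p => ⟨-p.1, p.2.imp neg_mem_S neg_mem_S⟩⟩

theorem coe_neg (p : X) : ((-p : X) : ℂ × ℝ) = -(p : ℂ × ℝ) := rfl

/-- the quotient map -/
def q (p : ℂ × ℝ) : ℂ × ℂ × ℝ := (p.1 ^ 2, (p.2 : ℂ) * p.1, p.2 ^ 2)

theorem continuous_q : Continuous q := by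
  unfold q
  have := Complex.continuous_ofReal
  fun_prop

theorem q_neg (p : ℂ × ℝ) : q (-p) = q p := by simp [q]

theorem q_eq {p p' : ℂ × ℝ} (h : q p = q p') : p' = p ∨ p' = -p := by
  obtain ⟨w, t⟩ := p
  obtain ⟨w', t'⟩ := p'
  simp only [q, Prod.mk.injEq] at h
  obtain ⟨h1, h2, h3⟩ := h
  rcases sq_eq_sq_iff_eq_or_eq_neg.1 h3 with ht | ht
  · subst ht
    by_cases h0 : t = 0
    · subst h0
      rcases sq_eq_sq_iff_eq_or_eq_neg.1 h1 with hw | hw
      · left; rw [hw]
      · right; ext1 <;> simp [hw]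
    · have : (t : ℂ) ≠ 0 := by exact_mod_cast h0
      left
      rw [mul_left_cancel₀ this h2]
  · by_cases h0 : t' = 0
    · subst h0
      simp only [neg_zero] at ht
      subst ht
      rcases sq_eq_sq_iff_eq_or_eq_neg.1 h1 with hw | hw
      · left; rw [hw]
      · right; ext1 <;> simp [hw]
    · have : (t' : ℂ) ≠ 0 := by exact_mod_cast h0
      right
      rw [ht] at h2
      push_cast at h2
      have h4 : (t' : ℂ) * (-w) = t' * w' := by rw [← h2]; ring
      ext1
      · exact (mul_left_cancel₀ this h4).symm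
      · simp [ht]

/-- the quotient of the necklace: a wedge of two projective planes -/
abbrev Y : Type := ↥(range fun p : X => q p)

/-- the double covering -/
def f (p : X) : Y := ⟨q p, p, rfl⟩

theorem continuous_f : Continuous f :=
  (continuous_q.comp continuous_subtype_val).subtype_mk _

theorem surjective_f : Function.Surjective f := by
  rintro ⟨_, p, rfl⟩
  exact ⟨p, rfl⟩

theorem f_neg (p : X) : f (-p) = f p := Subtype.ext (q_neg p)

theorem f_eq {p p' : X} (h : f p = f p') : p' = p ∨ p' = -p := by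
  rcases q_eq (congrArg Subtype.val h) with h | h
  · exact Or.inl (Subtype.ext h)
  · exact Or.inr (Subtype.ext h)

theorem isCompact_S {c : ℝ} (hc : 0 < c) : IsCompact (S c) := by
  refine Metric.isCompact_of_isClosed_isBounded (isClosed_S c) ?_
  refine (Metric.isBounded_closedBall (x := (0 : ℂ × ℝ)) (r := max c⁻¹ 1)).subset ?_
  intro p hpS
  have h' : c * ‖p.1‖ + |p.2| = 1 := hpS
  rw [mem_closedBall_zero_iff, Prod.norm_def]
  have h1 := abs_nonneg p.2
  have h2 : 0 ≤ c * ‖p.1‖ := by positivity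
  refine max_le_max ?_ ?_
  · rw [← one_div, le_div_iff₀ hc]
    linarith
  · rw [Real.norm_eq_abs]
    linarith

instance : CompactSpace X :=
  isCompact_iff_compactSpace.1 ((isCompact_S one_pos).union (isCompact_S two_pos))

theorem top_mem (c : ℝ) : ((0, 1) : ℂ × ℝ) ∈ S c := by simp [S]

instance : ConnectedSpace X :=
  isConnected_iff_connectedSpace.1 (IsConnected.union ⟨(0, 1), top_mem 1, top_mem 2⟩
    (isConnected_S one_pos) (isConnected_S two_pos))

/-- parametrisation of the necklace by four discs -/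
noncomputable def Φ (x : ℂ × Bool × Bool) : X :=
  ⟨hp (cond x.2.1 1 2) (cond x.2.2 1 (-1)) x.1, by
    cases h : x.2.1
    · exact Or.inr (hp_mem two_pos (by cases x.2.2 <;> simp) _)
    · exact Or.inl (hp_mem one_pos (by cases x.2.2 <;> simp) _)⟩

theorem continuous_Φ : Continuous Φ := by
  refine Continuous.subtype_mk ?_ _
  rw [continuous_iff_continuousAt]
  rintro ⟨w, a, b⟩
  have : (fun x : ℂ × Bool × Bool => hp (cond x.2.1 1 2) (cond x.2.2 1 (-1)) x.1) =ᶠ[𝓝 (w, a, b)]
      fun x => hp (cond a 1 2) (cond b 1 (-1)) x.1 := by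
    have h1 : {x : ℂ × Bool × Bool | x.2 = (a, b)} ∈ 𝓝 (w, a, b) :=
      ((isOpen_discrete {(a, b)}).preimage continuous_snd).mem_nhds rfl
    filter_upwards [h1] with x hx
    have hx' : x.2 = (a, b) := hx
    rw [hx']
  rw [continuousAt_congr this]
  exact ((continuous_hp _ _).comp continuous_fst).continuousAt

/-- the inclusion of the four closed discs -/
def incl (x : Metric.closedBall (0 : ℂ) 1 × Bool × Bool) : ℂ × Bool × Bool := (x.1, x.2)

theorem continuous_incl : Continuous incl := by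
  unfold incl
  fun_prop

theorem surj_Φ : Function.Surjective (Φ ∘ incl) := by
  rintro ⟨p, h⟩
  have key : ∀ c : ℝ, 0 < c → p ∈ S c → ‖c • p.1‖ ≤ 1 := by
    intro c hc hpS
    have h' : c * ‖p.1‖ + |p.2| = 1 := hpS
    rw [norm_smul, Real.norm_eq_abs, abs_of_pos hc]
    have := abs_nonneg p.2
    linarith
  rcases h with h | h
  · rcases le_total 0 p.2 with h2 | h2
    · exact ⟨(⟨(1 : ℝ) • p.1, by simpa using key 1 one_pos h⟩, true, true),
        Subtype.ext (hp_up one_pos h h2)⟩
    · exact ⟨(⟨(1 : ℝ) • p.1, by simpa using key 1 one_pos h⟩, true, false),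
        Subtype.ext (hp_down one_pos h h2)⟩
  · rcases le_total 0 p.2 with h2 | h2
    · exact ⟨(⟨(2 : ℝ) • p.1, by simpa using key 2 two_pos h⟩, false, true),
        Subtype.ext (hp_up two_pos h h2)⟩
    · exact ⟨(⟨(2 : ℝ) • p.1, by simpa using key 2 two_pos h⟩, false, false),
        Subtype.ext (hp_down two_pos h h2)⟩

theorem quot_Φ : IsQuotientMap Φ := by
  have hc : Continuous (Φ ∘ incl) := continuous_Φ.comp continuous_incl
  have : IsQuotientMap (Φ ∘ incl) := hc.isClosedMap.isQuotientMap hc surj_Φ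
  exact IsQuotientMap.of_comp continuous_incl continuous_Φ this

instance : LocallyPathConnectedSpace X := quot_Φ.locallyPathConnectedSpace

theorem quot_f : IsQuotientMap f :=
  continuous_f.isClosedMap.isQuotientMap continuous_f surjective_f

theorem continuous_neg_X : Continuous fun p : X => -p :=
  continuous_subtype_val.neg.subtype_mk _

theorem isOpenMap_f : IsOpenMap f := by
  intro U hU
  rw [← quot_f.isOpen_preimage]
  have : f ⁻¹' (f '' U) = U ∪ (fun p : X => -p) ⁻¹' U := by
    ext p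
    constructor
    · rintro ⟨p', hp', he⟩
      rcases f_eq he with rfl | rfl
      · exact Or.inl hp'
      · right
        have : - -p' = p' := Subtype.ext (by rw [coe_neg, coe_neg, neg_neg])
        show - -p' ∈ U
        rwa [this]
    · rintro (h | h)
      · exact ⟨p, h, rfl⟩
      · exact ⟨-p, h, f_neg p⟩
  rw [this]
  exact hU.union (hU.preimage continuous_neg_X)

theorem coe_ne_zero (p : X) : (p : ℂ × ℝ) ≠ 0 := by
  intro h
  rcases p.2 with h1 | h1 <;>
  · rw [h] at h1
    simp [S] at h1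

theorem isLocalHomeomorph_f : IsLocalHomeomorph f := by
  rw [isLocalHomeomorph_iff_isOpenEmbedding_restrict]
  intro p
  have hpos : 0 < ‖(p : ℂ × ℝ)‖ := norm_pos_iff.2 (coe_ne_zero p)
  refine ⟨Metric.ball p ‖(p : ℂ × ℝ)‖, Metric.ball_mem_nhds _ hpos, ?_⟩
  refine IsOpenEmbedding.of_continuous_injective_isOpenMap
    (continuous_f.comp continuous_subtype_val) ?_ ?_
  · rintro ⟨x, hx⟩ ⟨y, hy⟩ hxy
    have hxy' : f x = f y := hxy
    rcases f_eq hxy' with h | h
    · exact Subtype.ext h.symm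
    · exfalso
      rw [Metric.mem_ball, Subtype.dist_eq, dist_eq_norm] at hx hy
      rw [h, coe_neg] at hy
      have : ‖(2 : ℝ) • (p : ℂ × ℝ)‖ ≤ ‖(x : ℂ × ℝ) - p‖ + ‖-(x : ℂ × ℝ) - p‖ := by
        refine le_trans (le_of_eq ?_) (norm_add_le _ _)
        rw [← norm_neg]
        congr 1
        rw [two_smul]
        abel
      rw [norm_smul, Real.norm_eq_abs, abs_of_pos two_pos] at this
      linarith
  · exact isOpenMap_f.comp (Metric.isOpen_ball.isOpenMap_subtype_val)

instance : ConnectedSpace Y := surjective_f.connectedSpace continuous_f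

theorem log_Y (g : Y → Circle) (hg : Continuous g) :
    ∃ θ : Y → ℝ, Continuous θ ∧ ∀ y, Circle.exp (θ y) = g y := by
  classical
  -- extend `g ∘ f` to a function on the ambient space
  let G : ℂ × ℝ → Circle := fun p => if h : p ∈ S 1 ∪ S 2 then g (f ⟨p, h⟩) else 1
  have hGX : ∀ p : X, G p = g (f p) := fun p => dif_pos p.2
  have hGc : ContinuousOn G (S 1 ∪ S 2) := by
    rw [continuousOn_iff_continuous_domRestrict]
    exact (hg.comp continuous_f).congr fun p => (hGX p).symm
  have hGev : ∀ p ∈ S 1 ∪ S 2, G (-p) = G p := by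
    intro p h
    have h1 := hGX ⟨p, h⟩
    have h2 := hGX (-⟨p, h⟩)
    rw [coe_neg] at h2
    rw [h1, h2, f_neg]
  obtain ⟨θ, hθ, hθe, hθev⟩ := even_log one_pos (hGc.mono subset_union_left)
    (fun p h => hGev p (Or.inl h))
  obtain ⟨η, hη, hηe, hηev⟩ := even_log two_pos (hGc.mono subset_union_right)
    (fun p h => hGev p (Or.inr h))
  set d : ℝ := θ (0, 1) - η (0, 1) with hd
  have hexp : Circle.exp d = 1 := by
    rw [hd, Circle.exp_sub, hθe _ (top_mem 1), hηe _ (top_mem 2)]
    simp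
  have hint : ∀ p ∈ S 1 ∩ S 2, θ p = η p + d := by
    rintro p ⟨h1, h2⟩
    have h1' : 1 * ‖p.1‖ + |p.2| = 1 := h1
    have h2' : 2 * ‖p.1‖ + |p.2| = 1 := h2
    have h3 : p.1 = 0 := norm_eq_zero.1 (by linarith)
    have h4 : |p.2| = 1 := by rw [h3] at h1'; simpa using h1'
    rcases (abs_eq zero_le_one).1 h4 with h5 | h5
    · have : p = (0, 1) := Prod.ext h3 h5
      rw [this, hd]; ring
    · have : p = -(0, 1) := by
        ext1
        · simp [h3]
        · simp [h5]
      rw [this, hθev _ (top_mem 1), hηev _ (top_mem 2), hd]; ring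
  let T : ℂ × ℝ → ℝ := fun p => if p ∈ S 1 then θ p else η p + d
  have T1 : ∀ p ∈ S 1, T p = θ p := fun p h => if_pos h
  have T2 : ∀ p ∈ S 2, T p = η p + d := by
    intro p h
    by_cases h1 : p ∈ S 1
    · rw [T1 p h1, hint p ⟨h1, h⟩]
    · exact if_neg h1
  have hT : ContinuousOn T (S 1 ∪ S 2) := by
    apply ContinuousOn.union_of_isClosed _ _ (isClosed_S 1) (isClosed_S 2)
    · exact hθ.congr T1
    · exact (hη.add continuousOn_const).congr T2
  have hTe : ∀ p ∈ S 1 ∪ S 2, Circle.exp (T p) = G p := by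
    rintro p (h | h)
    · rw [T1 p h, hθe p h]
    · rw [T2 p h, Circle.exp_add, hηe p h, hexp, mul_one]
  have hTev : ∀ p ∈ S 1 ∪ S 2, T (-p) = T p := by
    rintro p (h | h)
    · rw [T1 p h, T1 _ (neg_mem_S h), hθev p h]
    · rw [T2 p h, T2 _ (neg_mem_S h), hηev p h]
  let Θ : Y → ℝ := fun y => T (Function.surjInv surjective_f y : X)
  have hΘf : ∀ p : X, Θ (f p) = T p := by
    intro p
    have h := Function.surjInv_eq surjective_f (f p)
    show T (Function.surjInv surjective_f (f p) : X) = T p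
    rcases f_eq h.symm with h' | h'
    · rw [h']
    · rw [h', coe_neg, hTev p p.2]
  refine ⟨Θ, ?_, ?_⟩
  · rw [quot_f.continuous_iff]
    have : Continuous fun p : X => T p := by
      rw [continuousOn_iff_continuous_domRestrict] at hT
      exact hT
    exact this.congr fun p => (hΘf p).symm
  · intro y
    obtain ⟨p, rfl⟩ := surjective_f y
    rw [hΘf, hTe p p.2, hGX]

theorem unicoherent_Y {A B : Set Y} (hA : IsClosed A) (hB : IsClosed B) (hAc : IsConnected A)
    (hBc : IsConnected B) (hAB : A ∪ B = univ) : IsConnected (A ∩ B) :=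
  unicoherent_of_log log_Y hA hB hAc hBc hAB

theorem not_unicoherent_X : ∃ A B : Set X, IsClosed A ∧ IsClosed B ∧ IsConnected A ∧
    IsConnected B ∧ A ∪ B = Set.univ ∧ ¬ IsConnected (A ∩ B) := by
  refine ⟨Subtype.val ⁻¹' S 1, Subtype.val ⁻¹' S 2, (isClosed_S 1).preimage continuous_subtype_val,
    (isClosed_S 2).preimage continuous_subtype_val, ?_, ?_, ?_, ?_⟩
  · refine ⟨⟨⟨(0, 1), Or.inl (top_mem 1)⟩, top_mem 1⟩, ?_⟩
    refine Topology.IsInducing.subtypeVal.isPreconnected_image.1 ?_
    rw [Subtype.image_preimage_coe, inter_eq_right.2 subset_union_left]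
    exact (isConnected_S one_pos).isPreconnected
  · refine ⟨⟨⟨(0, 1), Or.inl (top_mem 1)⟩, top_mem 2⟩, ?_⟩
    refine Topology.IsInducing.subtypeVal.isPreconnected_image.1 ?_
    rw [Subtype.image_preimage_coe, inter_eq_right.2 subset_union_right]
    exact (isConnected_S two_pos).isPreconnected
  · rw [← preimage_union]
    exact eq_univ_of_forall fun p => p.2
  · intro hcon
    have hp : IsPreconnected ((fun p : X => (p : ℂ × ℝ).2) '' 
        (Subtype.val ⁻¹' S 1 ∩ Subtype.val ⁻¹' S 2)) :=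
      hcon.isPreconnected.image _ (by fun_prop)
    have hb : ((0, -1) : ℂ × ℝ) ∈ S 1 ∩ S 2 := ⟨by simp [S], by simp [S]⟩
    have ht : ((0, 1) : ℂ × ℝ) ∈ S 1 ∩ S 2 := ⟨by simp [S], by simp [S]⟩
    have h0 : (0 : ℝ) ∈ (fun p : X => (p : ℂ × ℝ).2) '' 
        (Subtype.val ⁻¹' S 1 ∩ Subtype.val ⁻¹' S 2) := by
      refine hp.ordConnected.out (x := -1) (y := 1) ⟨⟨(0, -1), Or.inl hb.1⟩, hb, rfl⟩
        ⟨⟨(0, 1), Or.inl ht.1⟩, ht, rfl⟩ ⟨by norm_num, by norm_num⟩
    obtain ⟨p, ⟨h1, h2⟩, h3⟩ := h0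
    have h1' : 1 * ‖(p : ℂ × ℝ).1‖ + |(p : ℂ × ℝ).2| = 1 := h1
    have h2' : 2 * ‖(p : ℂ × ℝ).1‖ + |(p : ℂ × ℝ).2| = 1 := h2
    simp only at h3
    rw [h3, abs_zero] at h1' h2'
    linarith

end Pool.Agent.W621.Necklace
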